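import Pool.Agent.Zk74.KF.Units
import Pool.Agent.Zk51.KT.Nil

/-!
# Rings with an inner action of a finite group

If a two-sided ideal `J` of a `ℚ`-algebra, on which a finite group acts by conjugation with units of
the algebra, has nilpotent fixed points, then the elements of `J` are nilpotent.
-/

set_option autoImplicit false

namespace Pool.Agent.Zk74.KF

open Finset TensorProduct

universe u

section

variable {A : Type u} [Ring A] [Algebra ℚ A] {Γ : Type} [Group Γ] [Fintype Γ] (φ : Γ →* A)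
  (J : Submodule ℚ A)

/-- The elements of `J` which commute with the image of the group. -/
def fixJ : Submodule ℚ A where
  carrier := {x | x ∈ J ∧ ∀ γ, φ γ * x = x * φ γ}
  add_mem' := by
    rintro x y ⟨hx, hx'⟩ ⟨hy, hy'⟩
    exact ⟨J.add_mem hx hy, fun γ => by rw [mul_add, add_mul, hx', hy']⟩
  zero_mem' := ⟨J.zero_mem, fun γ => by rw [mul_zero, zero_mul]⟩
  smul_mem' := by
    rintro c x ⟨hx, hx'⟩
    exact ⟨J.smul_mem c hx, fun γ => by rw [mul_smul_comm, smul_mul_assoc, hx']⟩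

/-- An algebraic closure of the rational numbers. -/
abbrev QQ : Type := AlgebraicClosure ℚ

/-- The scalar extension of a subspace. -/
noncomputable def extJ (J : Submodule ℚ A) : Submodule ℚ (QQ ⊗[ℚ] A) :=
  Submodule.span ℚ {z | ∃ (f : QQ), ∃ x ∈ J, z = f ⊗ₜ[ℚ] x}

lemma tmul_mem {J : Submodule ℚ A} (f : QQ) {x : A} (hx : x ∈ J) : f ⊗ₜ[ℚ] x ∈ extJ J :=
  Submodule.subset_span ⟨f, x, hx, rfl⟩

lemma extJ_left {J : Submodule ℚ A} (hl : ∀ a, ∀ x ∈ J, a * x ∈ J) (a : QQ ⊗[ℚ] A) :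
    ∀ z ∈ extJ J, a * z ∈ extJ J := by
  intro z hz
  induction hz using Submodule.span_induction with
  | mem z hz =>
    obtain ⟨f, x, hx, rfl⟩ := hz
    induction a using TensorProduct.induction_on with
    | zero => rw [zero_mul]; exact Submodule.zero_mem _
    | tmul g b =>
      rw [Algebra.TensorProduct.tmul_mul_tmul]
      exact tmul_mem _ (hl b x hx)
    | add s t hs ht => rw [add_mul]; exact Submodule.add_mem _ hs ht
  | zero => rw [mul_zero]; exact Submodule.zero_mem _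
  | add s t _ _ hs ht => rw [mul_add]; exact Submodule.add_mem _ hs ht
  | smul c s _ hs => rw [mul_smul_comm]; exact Submodule.smul_mem _ c hs

lemma extJ_right {J : Submodule ℚ A} (hr : ∀ a, ∀ x ∈ J, x * a ∈ J) (a : QQ ⊗[ℚ] A) :
    ∀ z ∈ extJ J, z * a ∈ extJ J := by
  intro z hz
  induction hz using Submodule.span_induction with
  | mem z hz =>
    obtain ⟨f, x, hx, rfl⟩ := hz
    induction a using TensorProduct.induction_on with
    | zero => rw [mul_zero]; exact Submodule.zero_mem _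
    | tmul g b =>
      rw [Algebra.TensorProduct.tmul_mul_tmul]
      exact tmul_mem _ (hr b x hx)
    | add s t hs ht => rw [mul_add]; exact Submodule.add_mem _ hs ht
  | zero => rw [zero_mul]; exact Submodule.zero_mem _
  | add s t _ _ hs ht => rw [add_mul]; exact Submodule.add_mem _ hs ht
  | smul c s _ hs => rw [smul_mul_assoc]; exact Submodule.smul_mem _ c hs

lemma extJ_pow (J : Submodule ℚ A) (k : ℕ) : extJ J ^ k ≤ extJ (J ^ k) := by
  induction k with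
  | zero =>
    rw [pow_zero, pow_zero, Submodule.one_le, Algebra.TensorProduct.one_def]
    exact tmul_mem _ (Submodule.one_le.1 le_rfl)
  | succ k ih =>
    rw [pow_succ]
    refine le_trans (mul_le_mul' ih le_rfl) ?_
    unfold extJ
    rw [Submodule.span_mul_span, Submodule.span_le]
    rintro _ ⟨_, ⟨f, x, hx, rfl⟩, _, ⟨g, y, hy, rfl⟩, rfl⟩
    change (f ⊗ₜ[ℚ] x) * (g ⊗ₜ[ℚ] y) ∈ _
    rw [Algebra.TensorProduct.tmul_mul_tmul]
    refine tmul_mem _ ?_
    rw [pow_succ]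
    exact Submodule.mul_mem_mul hx hy

lemma extJ_bot : extJ (⊥ : Submodule ℚ A) = ⊥ := by
  unfold extJ
  rw [Submodule.span_eq_bot]
  rintro _ ⟨f, x, hx, rfl⟩
  rw [(Submodule.mem_bot ℚ).1 hx, TensorProduct.tmul_zero]

/-- The sum of the conjugates. -/
noncomputable def tt (z : QQ ⊗[ℚ] A) : QQ ⊗[ℚ] A :=
  ∑ γ : Γ, ((1 : QQ) ⊗ₜ[ℚ] φ γ) * z * ((1 : QQ) ⊗ₜ[ℚ] φ γ⁻¹)

lemma avg_fix {x : A} (hl : ∀ a, ∀ x ∈ J, a * x ∈ J) (hr : ∀ a, ∀ x ∈ J, x * a ∈ J) (hx : x ∈ J) :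
    ∑ γ : Γ, φ γ * x * φ γ⁻¹ ∈ fixJ φ J := by
  refine ⟨Submodule.sum_mem _ fun γ _ => hr _ _ (hl _ _ hx), fun g => ?_⟩
  rw [Finset.mul_sum, Finset.sum_mul]
  refine Fintype.sum_equiv (Equiv.mulLeft g) _ _ fun γ => ?_
  rw [Equiv.coe_mulLeft, map_mul, mul_inv_rev, map_mul]
  have h1 : φ g⁻¹ * φ g = 1 := by rw [← map_mul, inv_mul_cancel, map_one]
  calc φ g * (φ γ * x * φ γ⁻¹) = φ g * φ γ * x * φ γ⁻¹ * 1 := by noncomm_ring
    _ = φ g * φ γ * x * φ γ⁻¹ * (φ g⁻¹ * φ g) := by rw [h1]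
    _ = φ g * φ γ * x * (φ γ⁻¹ * φ g⁻¹) * φ g := by noncomm_ring

lemma tt_mem (hl : ∀ a, ∀ x ∈ J, a * x ∈ J) (hr : ∀ a, ∀ x ∈ J, x * a ∈ J) :
    ∀ z ∈ extJ J, tt φ z ∈ extJ (fixJ φ J) := by
  intro z hz
  induction hz using Submodule.span_induction with
  | mem z hz =>
    obtain ⟨f, x, hx, rfl⟩ := hz
    have h1 : tt φ (f ⊗ₜ[ℚ] x) = f ⊗ₜ[ℚ] (∑ γ : Γ, φ γ * x * φ γ⁻¹) := by
      unfold tt
      rw [TensorProduct.tmul_sum]
      refine Finset.sum_congr rfl fun γ _ => ?_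
      rw [Algebra.TensorProduct.tmul_mul_tmul, Algebra.TensorProduct.tmul_mul_tmul, one_mul,
        mul_one]
    rw [h1]
    exact tmul_mem _ (avg_fix φ J hl hr hx)
  | zero =>
    have : tt φ (0 : QQ ⊗[ℚ] A) = 0 := by simp [tt]
    rw [this]
    exact Submodule.zero_mem _
  | add s t _ _ hs ht =>
    have : tt φ (s + t) = tt φ s + tt φ t := by
      simp [tt, mul_add, add_mul, Finset.sum_add_distrib]
    rw [this]
    exact Submodule.add_mem _ hs ht
  | smul c s _ hs =>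
    have : tt φ (c • s) = c • tt φ s := by
      simp only [tt, mul_smul_comm, smul_mul_assoc, Finset.smul_sum]
    rw [this]
    exact Submodule.smul_mem _ c hs

lemma fix_of_comm (hl : ∀ a, ∀ x ∈ J, a * x ∈ J) (hr : ∀ a, ∀ x ∈ J, x * a ∈ J)
    {z : QQ ⊗[ℚ] A} (hz : z ∈ extJ J)
    (h : ∀ γ, ((1 : QQ) ⊗ₜ[ℚ] φ γ) * z = z * ((1 : QQ) ⊗ₜ[ℚ] φ γ)) : z ∈ extJ (fixJ φ J) := by
  have h1 : tt φ z = (Fintype.card Γ : ℚ) • z := by
    unfold tt
    have : ∀ γ ∈ (univ : Finset Γ), ((1 : QQ) ⊗ₜ[ℚ] φ γ) * z * ((1 : QQ) ⊗ₜ[ℚ] φ γ⁻¹) = z := by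
      intro γ _
      rw [h, mul_assoc, Algebra.TensorProduct.tmul_mul_tmul, ← map_mul, mul_inv_cancel, map_one,
        one_mul, ← Algebra.TensorProduct.one_def, mul_one]
    rw [Finset.sum_congr rfl this, Finset.sum_const, card_univ, Nat.cast_smul_eq_nsmul]
  have h2 : (Fintype.card Γ : ℚ) ≠ 0 := by exact_mod_cast Fintype.card_ne_zero
  have h3 : z = (Fintype.card Γ : ℚ)⁻¹ • tt φ z := by
    rw [h1, smul_smul, inv_mul_cancel₀ h2, one_smul]
  rw [h3]
  exact Submodule.smul_mem _ _ (tt_mem φ J hl hr z hz)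

/-- The homomorphism from the group ring. -/
noncomputable def PH : MonoidAlgebra QQ Γ →ₐ[QQ] (QQ ⊗[ℚ] A) :=
  MonoidAlgebra.lift QQ (QQ ⊗[ℚ] A) Γ
    ((Algebra.TensorProduct.includeRight : A →ₐ[ℚ] QQ ⊗[ℚ] A).toMonoidHom.comp φ)

lemma PH_single (γ : Γ) : PH φ (MonoidAlgebra.single γ 1) = (1 : QQ) ⊗ₜ[ℚ] φ γ := by
  unfold PH
  rw [MonoidAlgebra.lift_single, one_smul]
  rfl

end

end Pool.Agent.Zk74.KF
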