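import Pool.Agent.Zk74.KF.BI

/-!
# Rings with an inner action of a finite group: the theorem
-/

set_option autoImplicit false

namespace Pool.Agent.Zk74.KF

open Finset TensorProduct

universe u

section

variable {R : Type u} [Ring R] [Algebra ℚ R]

/-- The ideal generated by an idempotent with a nilpotent corner. -/
theorem corner_nil (JJ : Submodule ℚ R) (hl : ∀ a, ∀ x ∈ JJ, a * x ∈ JJ)
    (hr : ∀ a, ∀ x ∈ JJ, x * a ∈ JJ) {ε : R} (hε : ε * ε = ε) (V : Submodule ℚ R)
    (hV : ∀ z ∈ JJ, ε * z * ε ∈ V) (hV' : ∀ v ∈ V, v * ε = v) {L : ℕ} (hL : V ^ L = ⊥) :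
    (JJ * (Submodule.span ℚ {ε} * JJ)) ^ (L + 1) = ⊥ := by
  obtain ⟨E, hE⟩ : ∃ E : Submodule ℚ R, E = Submodule.span ℚ {ε} := ⟨_, rfl⟩
  rw [← hE]
  have hEE : E * E = E := by
    rw [hE, Submodule.span_mul_span, Set.singleton_mul_singleton, hε]
  have hEJE : E * JJ * E ≤ V := by
    rw [Submodule.mul_le]
    intro m hm n hn
    rw [hE, Submodule.mem_span_singleton] at hn
    obtain ⟨c, rfl⟩ := hn
    rw [mul_smul_comm]
    refine V.smul_mem c ?_
    refine Submodule.mul_induction_on hm (fun e he z hz => ?_) fun x y hx hy => ?_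
    · rw [hE, Submodule.mem_span_singleton] at he
      obtain ⟨c', rfl⟩ := he
      rw [smul_mul_assoc, smul_mul_assoc]
      exact V.smul_mem _ (hV z hz)
    · rw [add_mul]
      exact V.add_mem hx hy
  have hVE : V * E = V := by
    apply le_antisymm
    · rw [Submodule.mul_le]
      intro m hm n hn
      rw [hE, Submodule.mem_span_singleton] at hn
      obtain ⟨c, rfl⟩ := hn
      rw [mul_smul_comm, hV' m hm]
      exact V.smul_mem c hm
    · intro v hv
      rw [← hV' v hv]
      exact Submodule.mul_mem_mul hv (by rw [hE]; exact Submodule.mem_span_singleton_self ε)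
  have hEV : ∀ k, E * V ^ k = E * V ^ k * E := by
    intro k
    induction k with
    | zero => rw [pow_zero, mul_one, hEE]
    | succ k _ => rw [pow_succ, ← mul_assoc, mul_assoc (E * V ^ k) V E, hVE]
  have hJJ : JJ * JJ ≤ JJ := by
    rw [Submodule.mul_le]
    intro m _ n hn
    exact hl m n hn
  have key : ∀ k, (JJ * (E * JJ)) ^ (k + 1) ≤ JJ * (E * V ^ k * JJ) := by
    intro k
    induction k with
    | zero => rw [zero_add, pow_one, pow_zero, mul_one]
    | succ k ih =>
      rw [pow_succ]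
      refine le_trans (mul_le_mul' ih le_rfl) ?_
      calc JJ * (E * V ^ k * JJ) * (JJ * (E * JJ)) = JJ * (E * V ^ k * (JJ * JJ) * E * JJ) := by
            simp only [mul_assoc]
        _ ≤ JJ * (E * V ^ k * JJ * E * JJ) := by gcongr
        _ = JJ * (E * V ^ k * (E * JJ * E) * JJ) := by
            rw [show E * V ^ k * JJ * E = E * V ^ k * (E * JJ * E) by
              conv_lhs => rw [hEV k]
              simp only [mul_assoc]]
        _ ≤ JJ * (E * V ^ k * V * JJ) := by gcongr
        _ = JJ * (E * V ^ (k + 1) * JJ) := by rw [mul_assoc E (V ^ k) V, ← pow_succ]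
  have h1 := key L
  rw [hL, Submodule.mul_bot, Submodule.bot_mul, Submodule.mul_bot] at h1
  exact le_bot_iff.1 h1

end

variable {A : Type u} [Ring A] [Algebra ℚ A] {Γ : Type} [Group Γ] [Fintype Γ] (φ : Γ →* A)
  (J : Submodule ℚ A)

/-- **Inner actions.** If the fixed points of the ideal `J` are nilpotent then the elements of `J`
are nilpotent. -/
theorem inner_nil (hl : ∀ a, ∀ x ∈ J, a * x ∈ J) (hr : ∀ a, ∀ x ∈ J, x * a ∈ J) {L : ℕ}
    (hL : fixJ φ J ^ (L + 1) = ⊥) : ∀ x ∈ J, IsNilpotent x := by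
  classical
  intro x hx
  have hne : NeZero (Nat.card Γ : QQ) := ⟨by exact_mod_cast Nat.card_pos.ne'⟩
  have hfin : Module.Finite QQ (MonoidAlgebra QQ Γ) := inferInstance
  have hss : IsSemisimpleRing (MonoidAlgebra QQ Γ) := inferInstance
  obtain ⟨m, d, E, h1, h2, h3⟩ := exists_units QQ (MonoidAlgebra QQ Γ)
  obtain ⟨JJ, hJJ⟩ : ∃ JJ : Submodule ℚ (QQ ⊗[ℚ] A), JJ = extJ J := ⟨_, rfl⟩
  have hJl : ∀ a, ∀ z ∈ JJ, a * z ∈ JJ := by rw [hJJ]; exact extJ_left hl
  have hJr : ∀ a, ∀ z ∈ JJ, z * a ∈ JJ := by rw [hJJ]; exact extJ_right hr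
  have hG : extJ (fixJ φ J) ^ (L + 1) = ⊥ := by
    have := extJ_pow (fixJ φ J) (L + 1)
    rw [hL, extJ_bot] at this
    exact le_bot_iff.1 this
  -- the map to the fixed points
  let th : ∀ i : Fin m, Fin (d i) → (QQ ⊗[ℚ] A) → (QQ ⊗[ℚ] A) := fun i a w =>
    ∑ b, PH φ (E i b a) * w * PH φ (E i a b)
  have th_add : ∀ i a w w', th i a (w + w') = th i a w + th i a w' := by
    intro i a w w'
    simp only [th, mul_add, add_mul, Finset.sum_add_distrib]
  have th_smul : ∀ i a (c : ℚ) w, th i a (c • w) = c • th i a w := by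
    intro i a c w
    simp only [th, mul_smul_comm, smul_mul_assoc, Finset.smul_sum]
  have th_comm : ∀ i a w (β : MonoidAlgebra QQ Γ), PH φ β * th i a w = th i a w * PH φ β := by
    intro i a w β
    obtain ⟨M, hM1, hM2⟩ := h2 β i
    simp only [th]
    rw [Finset.mul_sum, Finset.sum_mul]
    have e1 : ∀ b, PH φ β * (PH φ (E i b a) * w * PH φ (E i a b)) =
        ∑ c, M c b • (PH φ (E i c a) * w * PH φ (E i a b)) := by
      intro b
      rw [← mul_assoc, ← mul_assoc, ← map_mul, hM1, map_sum, Finset.sum_mul, Finset.sum_mul]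
      refine Finset.sum_congr rfl fun c _ => ?_
      rw [map_smul, smul_mul_assoc, smul_mul_assoc]
    have e2 : ∀ b, PH φ (E i b a) * w * PH φ (E i a b) * PH φ β =
        ∑ c, M b c • (PH φ (E i b a) * w * PH φ (E i a c)) := by
      intro b
      rw [mul_assoc, ← map_mul, hM2, map_sum, Finset.mul_sum]
      refine Finset.sum_congr rfl fun c _ => ?_
      rw [map_smul, mul_smul_comm]
    rw [Finset.sum_congr rfl fun b _ => e1 b, Finset.sum_congr rfl fun b _ => e2 b,
      Finset.sum_comm]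
  have th_mem : ∀ i a w, w ∈ JJ → th i a w ∈ extJ (fixJ φ J) := by
    intro i a w hw
    refine fix_of_comm φ J hl hr ?_ fun γ => ?_
    · rw [← hJJ]
      exact Submodule.sum_mem _ fun b _ => hJr _ _ (hJl _ _ hw)
    · rw [← PH_single]
      exact th_comm i a w _
  have th_mul : ∀ i a w w', w * PH φ (E i a a) = w →
      th i a w * th i a w' = th i a (w * w') := by
    intro i a w w' hw
    simp only [th]
    rw [Finset.sum_mul]
    refine Finset.sum_congr rfl fun b _ => ?_
    rw [Finset.mul_sum, Finset.sum_eq_single b]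
    · have e1 : PH φ (E i a b) * PH φ (E i b a) = PH φ (E i a a) := by
        rw [← map_mul, h1, if_pos rfl]
      calc PH φ (E i b a) * w * PH φ (E i a b) * (PH φ (E i b a) * w' * PH φ (E i a b))
          = PH φ (E i b a) * w * (PH φ (E i a b) * PH φ (E i b a)) * w' * PH φ (E i a b) := by
            noncomm_ring
        _ = PH φ (E i b a) * (w * PH φ (E i a a)) * w' * PH φ (E i a b) := by
            rw [e1]; noncomm_ring
        _ = _ := by rw [hw]; noncomm_ring
    · intro c _ hc
      have e1 : PH φ (E i a b) * PH φ (E i c a) = 0 := by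
        rw [← map_mul, h1, if_neg (fun h => hc h.symm), map_zero]
      calc PH φ (E i b a) * w * PH φ (E i a b) * (PH φ (E i c a) * w' * PH φ (E i a c))
          = PH φ (E i b a) * w * (PH φ (E i a b) * PH φ (E i c a)) * w' * PH φ (E i a c) := by
            noncomm_ring
        _ = 0 := by rw [e1]; simp
    · intro h
      exact absurd (mem_univ _) h
  have th_corner : ∀ i a w, PH φ (E i a a) * th i a w * PH φ (E i a a) =
      PH φ (E i a a) * w * PH φ (E i a a) := by
    intro i a w
    simp only [th]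
    rw [Finset.mul_sum, Finset.sum_mul, Finset.sum_eq_single a]
    · have e1 : PH φ (E i a a) * PH φ (E i a a) = PH φ (E i a a) := by
        rw [← map_mul, h1, if_pos rfl]
      calc PH φ (E i a a) * (PH φ (E i a a) * w * PH φ (E i a a)) * PH φ (E i a a)
          = (PH φ (E i a a) * PH φ (E i a a)) * w * (PH φ (E i a a) * PH φ (E i a a)) := by
            noncomm_ring
        _ = _ := by rw [e1]
    · intro b _ hb
      have e1 : PH φ (E i a a) * PH φ (E i b a) = 0 := by
        rw [← map_mul, h1, if_neg (fun h => hb h.symm), map_zero]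
      calc PH φ (E i a a) * (PH φ (E i b a) * w * PH φ (E i a b)) * PH φ (E i a a)
          = (PH φ (E i a a) * PH φ (E i b a)) * w * PH φ (E i a b) * PH φ (E i a a) := by
            noncomm_ring
        _ = 0 := by rw [e1]; simp
    · intro h
      exact absurd (mem_univ _) h
  -- the corners are nilpotent
  have hcor : ∀ p : (Σ i : Fin m, Fin (d i)), ∃ V : Submodule ℚ (QQ ⊗[ℚ] A),
      (∀ z ∈ JJ, PH φ (E p.1 p.2 p.2) * z * PH φ (E p.1 p.2 p.2) ∈ V) ∧
      (∀ v ∈ V, v * PH φ (E p.1 p.2 p.2) = v) ∧ V ^ (L + 1) = ⊥ := by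
    rintro ⟨i, a⟩
    obtain ⟨ε, hε⟩ : ∃ ε, ε = PH φ (E i a a) := ⟨_, rfl⟩
    have hεε : ε * ε = ε := by rw [hε, ← map_mul, h1, if_pos rfl]
    let V : Submodule ℚ (QQ ⊗[ℚ] A) :=
      { carrier := {v | v ∈ JJ ∧ ε * v = v ∧ v * ε = v}
        add_mem' := by
          rintro v w ⟨hv1, hv2, hv3⟩ ⟨hw1, hw2, hw3⟩
          exact ⟨JJ.add_mem hv1 hw1, by rw [mul_add, hv2, hw2], by rw [add_mul, hv3, hw3]⟩
        zero_mem' := ⟨JJ.zero_mem, mul_zero _, zero_mul _⟩
        smul_mem' := by
          rintro c v ⟨hv1, hv2, hv3⟩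
          exact ⟨JJ.smul_mem c hv1, by rw [mul_smul_comm, hv2], by rw [smul_mul_assoc, hv3]⟩ }
    refine ⟨V, ?_, ?_, ?_⟩
    · intro z hz
      rw [← hε]
      refine ⟨hJr _ _ (hJl _ _ hz), ?_, ?_⟩
      · rw [← mul_assoc, ← mul_assoc, hεε]
      · rw [mul_assoc, hεε]
    · rintro v ⟨-, -, hv⟩
      rw [← hε]
      exact hv
    · have hk : ∀ k, ∀ w ∈ V ^ (k + 1), th i a w ∈ extJ (fixJ φ J) ^ (k + 1) ∧
          ε * w = w ∧ w * ε = w := by
        intro k
        induction k with
        | zero =>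
          intro w hw
          rw [zero_add, pow_one] at hw ⊢
          exact ⟨th_mem i a w hw.1, hw.2.1, hw.2.2⟩
        | succ k ih =>
          intro w hw
          rw [pow_succ] at hw ⊢
          refine Submodule.mul_induction_on hw (fun s hs t ht => ?_) fun s t hs ht => ?_
          · obtain ⟨i1, i2, i3⟩ := ih s hs
            refine ⟨?_, by rw [← mul_assoc, i2], by rw [mul_assoc, ht.2.2]⟩
            rw [← th_mul i a s t (by rw [← hε, i3])]
            exact Submodule.mul_mem_mul i1 (th_mem i a t ht.1)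
          · refine ⟨?_, by rw [mul_add, hs.2.1, ht.2.1], by rw [add_mul, hs.2.2, ht.2.2]⟩
            rw [th_add]
            exact Submodule.add_mem _ hs.1 ht.1
      rw [eq_bot_iff]
      intro w hw
      obtain ⟨i1, i2, i3⟩ := hk L w hw
      rw [hG, Submodule.mem_bot] at i1
      have i4 := th_corner i a w
      rw [i1, ← hε, i2, i3] at i4
      rw [Submodule.mem_bot, ← i4]
      simp
  -- the sum of the ideals
  have hX : (1 : QQ) ⊗ₜ[ℚ] x ∈ JJ := by rw [hJJ]; exact tmul_mem _ hx
  obtain ⟨X, hXd⟩ : ∃ X, X = (1 : QQ) ⊗ₜ[ℚ] x := ⟨_, rfl⟩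
  rw [← hXd] at hX
  choose V hV1 hV2 hV3 using hcor
  have hnil : IsNilpotent (∑ p : (Σ i : Fin m, Fin (d i)), X * (PH φ (E p.1 p.2 p.2) * X)) := by
    refine Pool.Agent.Zk51.KT.nil_sum
      (fun p : (Σ i : Fin m, Fin (d i)) =>
        JJ * (Submodule.span ℚ {PH φ (E p.1 p.2 p.2)} * JJ)) ?_ ?_ ?_ _ ?_ univ
    · intro p a s hs
      refine Submodule.mul_induction_on hs (fun z hz w hw => ?_) fun s t hs ht => ?_
      · have := Submodule.mul_mem_mul (hJl a z hz) hw
        rwa [mul_assoc a z w] at this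
      · rw [mul_add]
        exact Submodule.add_mem _ hs ht
    · intro p a s hs
      refine Submodule.mul_induction_on hs (fun z hz w hw => ?_) fun s t hs ht => ?_
      · rw [mul_assoc]
        refine Submodule.mul_mem_mul hz ?_
        refine Submodule.mul_induction_on hw (fun e he z' hz' => ?_) fun s t hs ht => ?_
        · rw [mul_assoc]
          exact Submodule.mul_mem_mul he (hJr a z' hz')
        · rw [add_mul]
          exact Submodule.add_mem _ hs ht
      · rw [add_mul]
        exact Submodule.add_mem _ hs ht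
    · intro p
      refine ⟨L + 1 + 1, ?_⟩
      exact corner_nil JJ hJl hJr (by rw [← map_mul, h1, if_pos rfl]) (V p) (hV1 p) (hV2 p)
        (hV3 p)
    · intro p
      exact Submodule.mul_mem_mul hX (Submodule.mul_mem_mul
        (Submodule.mem_span_singleton_self _) hX)
  have hsum : ∑ p : (Σ i : Fin m, Fin (d i)), X * (PH φ (E p.1 p.2 p.2) * X) = X * X := by
    rw [← Finset.mul_sum, ← Finset.sum_mul, Fintype.sum_sigma]
    have : ∑ i : Fin m, ∑ a : Fin (d i), PH φ (E i a a) = 1 := by
      rw [← map_one (PH φ), ← h3, map_sum]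
      refine Finset.sum_congr rfl fun i _ => ?_
      rw [map_sum]
    rw [this, one_mul]
  rw [hsum] at hnil
  obtain ⟨k, hk⟩ := hnil
  have hk2 : (1 : QQ) ⊗ₜ[ℚ] (x ^ (2 * k)) = 0 := by
    rw [← hk, ← pow_two, ← pow_mul, hXd, Algebra.TensorProduct.tmul_pow, one_pow]
  have hinj := Algebra.TensorProduct.includeRight_injective (R := ℚ) (A := QQ) (B := A)
    (algebraMap ℚ QQ).injective
  refine ⟨2 * k, hinj ?_⟩
  rw [map_zero]
  exact hk2

end Pool.Agent.Zk74.KF
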