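import Pool.Agent.Y116.MT.Trace

/-!
# Representations in two objects of a tensor category: definition
-/

set_option autoImplicit false

open CategoryTheory Limits MonoidalCategory
open Pool.Agent.Y116.MT

namespace Pool.Agent.Zk74.KF

universe v u

variable {C : Type u} [Category.{v} C] [Preadditive C] [Linear ℚ C] [MonoidalCategory C]
  [SymmetricCategory C] [RightRigidCategory C]

/-- The irreducible rational representations of `G` which occur in `M` occur in `N` modulo numerical
equivalence: each element of the rational group ring which acts on `N` as a numerically trivial
endomorphism acts on `M` as zero. -/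
def SeesOn {G : Type} [Group G] [Fintype G] {M N : C} (a : G →* End M) (b : G →* End N) : Prop :=
  ∀ c : G → ℚ, (∀ y : N ⟶ N, tr ((∑ g, c g • (b g : N ⟶ N)) ≫ y) = 0) →
    ∑ g, c g • (a g : M ⟶ M) = 0

end Pool.Agent.Zk74.KF
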