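import Pool.Agent.Zk74.KF.Seen

/-!
# Isotrivial products and Kimura finiteness: the final statements
-/

set_option autoImplicit false
set_option linter.unusedSectionVars false
set_option backward.isDefEq.respectTransparency false
set_option backward.defeqAttrib.useBackward true

namespace Pool.Agent.Zk74.KF

open CategoryTheory Limits MonoidalCategory
open Pool.Agent.Y112.SR Pool.Agent.Y112.KD Pool.Agent.R905 Pool.Agent.Zk51.KT
open Pool.Agent.X252.GA Pool.Agent.Y116.MT Pool.Agent.Zk74.KG Pool.Agent.Zk74.KC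

universe v u w

variable {C : Type u} [Category.{v} C] [Preadditive C] [Linear ℚ C] [MonoidalCategory C]
  [MonoidalPreadditive C] [MonoidalLinear ℚ C] [SymmetricCategory C] [RightRigidCategory C]
  [IsIdempotentComplete C] [HasBinaryBiproducts C] {K : Type w} [Field K]
  (R : SuperRealisation C K) {G : Type} [Group G] [Fintype G]

include R in
theorem quot_factor (hU : UnitQ C) {M N T : C} (a : G →* End M) (b : G →* End N)
    (hT : IsQuot (diag a b) ⊤ T) (hK : IsKimuraFinite T)
    (hb : ∀ g, ∃ q : ℚ, LinearMap.trace K (R.H.obj N) (R.H.map (b g : N ⟶ N)).hom = (q : K))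
    {H : Subgroup G} (hs : SeesNum b H) {Q : C} (hQ : IsQuot a H Q) : IsKimuraFinite Q :=
  seen_part R hU a b hT hK (fun _ _ a' hT' hS' hK' => kf_factor_rat R hU a' b hT' hS' hK' hb) hs hQ

include R in
theorem both (hU : UnitQ C) {M N T : C} (a : G →* End M) (b : G →* End N)
    (hT : IsQuot (diag a b) ⊤ T)
    (ha : ∀ g, ∃ q : ℚ, LinearMap.trace K (R.H.obj M) (R.H.map (a g : M ⟶ M)).hom = (q : K))
    (hb : ∀ g, ∃ q : ℚ, LinearMap.trace K (R.H.obj N) (R.H.map (b g : N ⟶ N)).hom = (q : K))
    (h1 : SeesOn a b) (h2 : SeesOn b a) :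
    IsKimuraFinite T ↔ IsKimuraFinite M ∧ IsKimuraFinite N := by
  constructor
  · intro h
    exact ⟨kf_factor_rat R hU a b hT h1 h hb,
      kf_factor_rat R hU b a (quot_symm a b hT) h2 h ha⟩
  · rintro ⟨hM, hN⟩
    exact prod_up R hU a b hT hM hN

/-- The traces are rational under the sign conjecture. -/
lemma rat_of_cplus (hU : UnitQ C) {N : C} (b : G →* End N) (h : R.CPlus N) (g : G) :
    ∃ q : ℚ, LinearMap.trace K (R.H.obj N) (R.H.map (b g : N ⟶ N)).hom = (q : K) := by
  obtain ⟨s, hs⟩ := (cplus_iff R N).1 h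
  refine ⟨trq hU N ((b g : N ⟶ N) ≫ s : N ⟶ N), ?_⟩
  rw [real_tr R hU, R.H.map_comp, hs, Category.assoc, R.par_sq, Category.comp_id]

lemma sees_on_of_num {M N : C} (a : G →* End M) (b : G →* End N)
    (h : SeesNum b (⊥ : Subgroup G)) : SeesOn a b := by
  intro c hc
  have h1 := h (fun g => c g⁻¹) (fun y => by simpa only [inv_inv] using hc y)
  refine Finset.sum_eq_zero fun g _ => ?_
  have h2 := h1 g⁻¹
  rw [finsum_unique, Subgroup.mem_bot.1 (default : (⊥ : Subgroup G)).2] at h2
  have h3 : c g = 0 := by simpa using h2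
  rw [h3, zero_smul]

end Pool.Agent.Zk74.KF
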