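import Pool.Agent.Zk74.KF.X

/-!
# Nilpotent ideals of homologically trivial endomorphisms, and the sign conjecture for the factors
-/

set_option autoImplicit false
set_option linter.unusedSectionVars false
set_option backward.isDefEq.respectTransparency false
set_option backward.defeqAttrib.useBackward true

namespace Pool.Agent.Zk74.KF

section

variable {R : Type*} [Ring R] [Algebra ℚ R]

/-- A two-sided ideal which is nilpotent. -/
def NilIdeal (S : Submodule ℚ R) : Prop :=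
  (∀ a, ∀ s ∈ S, a * s ∈ S) ∧ (∀ a, ∀ s ∈ S, s * a ∈ S) ∧ ∃ k : ℕ, S ^ k = ⊥

lemma NilIdeal.bot : NilIdeal (⊥ : Submodule ℚ R) := by
  refine ⟨fun a s hs => ?_, fun a s hs => ?_, 1, pow_one _⟩
  · rw [(Submodule.mem_bot ℚ).1 hs, mul_zero]
    exact Submodule.zero_mem _
  · rw [(Submodule.mem_bot ℚ).1 hs, zero_mul]
    exact Submodule.zero_mem _

lemma NilIdeal.sup {I J : Submodule ℚ R} (hI : NilIdeal I) (hJ : NilIdeal J) :
    NilIdeal (I ⊔ J) := by
  obtain ⟨hI1, hI2, m, hm⟩ := hI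
  obtain ⟨hJ1, hJ2, n, hn⟩ := hJ
  refine ⟨?_, ?_, m * n, ?_⟩
  · intro a s hs
    obtain ⟨x, hx, y, hy, rfl⟩ := Submodule.mem_sup.1 hs
    rw [mul_add]
    exact Submodule.add_mem_sup (hI1 a x hx) (hJ1 a y hy)
  · intro a s hs
    obtain ⟨x, hx, y, hy, rfl⟩ := Submodule.mem_sup.1 hs
    rw [add_mul]
    exact Submodule.add_mem_sup (hI2 a x hx) (hJ2 a y hy)
  · have hl : ∀ X : Submodule ℚ R, X * J ≤ J := fun X => by
      rw [Submodule.mul_le]
      exact fun a _ s hs => hJ1 a s hs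
    have hr : ∀ X : Submodule ℚ R, J * X ≤ J := fun X => by
      rw [Submodule.mul_le]
      exact fun s hs a _ => hJ2 a s hs
    have h1 : ∀ k, (I ⊔ J) ^ k ≤ I ^ k ⊔ J := by
      intro k
      induction k with
      | zero => rw [pow_zero, pow_zero]; exact le_sup_left
      | succ k ih =>
        rw [pow_succ]
        refine le_trans (mul_le_mul' ih le_rfl) ?_
        rw [Submodule.sup_mul, Submodule.mul_sup, pow_succ]
        refine sup_le (sup_le le_sup_left ((hl _).trans le_sup_right)) ((hr _).trans le_sup_right)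
    have h2 : (I ⊔ J) ^ m ≤ J := by
      have := h1 m
      rw [hm, bot_sup_eq] at this
      exact this
    rw [pow_mul, ← le_bot_iff, ← hn]
    exact pow_le_pow_left' h2 n

lemma NilIdeal.finset_sup {ι : Type*} (s : Finset ι) (S : ι → Submodule ℚ R)
    (h : ∀ j, NilIdeal (S j)) : NilIdeal (s.sup S) := by
  classical
  induction s using Finset.induction_on with
  | empty => rw [Finset.sup_empty]; exact NilIdeal.bot
  | insert a s ha ih => rw [Finset.sup_insert]; exact (h a).sup ih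

end

open CategoryTheory Limits MonoidalCategory
open Pool.Agent.Y112.SR Pool.Agent.Y112.KD Pool.Agent.R905 Pool.Agent.Zk51.KT
open Pool.Agent.X252.GA Pool.Agent.Y116.MT Pool.Agent.Zk74.KG Pool.Agent.Zk74.KC
open Pool.Agent.TH829.Kim (InRad Killed)
open Functor.LaxMonoidal Functor.OplaxMonoidal

universe v u w

variable {C : Type u} [Category.{v} C] [Preadditive C] [Linear ℚ C] [MonoidalCategory C]
  [MonoidalPreadditive C] [MonoidalLinear ℚ C] [SymmetricCategory C] [RightRigidCategory C]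
  [IsIdempotentComplete C] [HasBinaryBiproducts C] {K : Type w} [Field K]
  (R : SuperRealisation C K) {G : Type} [Group G] [Fintype G]

include R in
/-- The homologically trivial endomorphisms of a decomposable object are contained in a nilpotent
ideal. -/
theorem dec_ideal (hU : UnitQ C) {M : C} (h : Dec M) : ∃ S : Submodule ℚ (End M), NilIdeal S ∧
    ∀ f : End M, R.H.map (f : M ⟶ M) = 0 → f ∈ S := by
  obtain ⟨ι, _, P, i, r, h1, h2, h3⟩ := h
  have hsym : ∀ a b : End M, trq hU M (a * b) = trq hU M (b * a) := by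
    intro a b
    rw [End.mul_def, End.mul_def]
    exact trq_comm' R hU _ _
  have key : ∀ j, ∃ S : Submodule ℚ (End M),
      (∀ a, ∀ s ∈ S, a * s ∈ S) ∧ (∀ a, ∀ s ∈ S, s * a ∈ S) ∧ (∃ k : ℕ, S ^ k = ⊥) ∧
      ∀ x, InRad (trq hU M) x → x * en (r j ≫ i j) ∈ S := by
    intro j
    obtain ⟨κ, n, hκ, hn⟩ := h3 j
    have hκ0 : κ ≠ 0 := by
      rintro rfl
      norm_num at hκ
    refine exists_ideal hsym ?_ hκ0 (killed hU hκ (i j) (r j) n hn (en (r j ≫ i j)) rfl)
    rw [End.mul_def]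
    change (r j ≫ i j) ≫ r j ≫ i j = r j ≫ i j
    rw [Category.assoc, reassoc_of% (h1 j)]
  choose S hS1 hS2 hS3 hS4 using key
  refine ⟨Finset.univ.sup S, NilIdeal.finset_sup _ S fun j => ⟨hS1 j, hS2 j, hS3 j⟩,
    fun f hf => ?_⟩
  have hr := inRad_of_map R hU f hf
  have h4 : ∑ j, en (r j ≫ i j) = 1 := h2
  have h5 : f = ∑ j, f * en (r j ≫ i j) := by rw [← Finset.mul_sum, h4, mul_one]
  rw [h5]
  exact Submodule.sum_mem _ fun j _ =>
    (Finset.le_sup (f := S) (Finset.mem_univ j)) (hS4 j f hr)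

/-- An ideal which contains the elements `∑ tr(β(g) y) g`. -/
lemma act_eq_one (hU : UnitQ C) {W U : C} (α : G →* End W) (β : G →* End U)
    (hS : SeesOn α β) (I : Ideal (MonoidAlgebra ℚ G)) (hI : ∀ x ∈ I, ∀ y, x * y ∈ I)
    (huel : ∀ y : U ⟶ U, uel hU β y ∈ I) : ∃ e ∈ I, (act α e : W ⟶ W) = 𝟙 W := by
  obtain ⟨e, he, hi, hex, -, hd⟩ := exists_central I hI
  refine ⟨e, he, ?_⟩
  have h5 : ∀ y : U ⟶ U, tr ((∑ g, (1 - e : MonoidAlgebra ℚ G).coeff g • (β g : U ⟶ U)) ≫ y) = 0 := by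
    intro y
    rw [← act_eq, tr_zero_iff hU]
    have h6 := coeff_uel hU β y (1 - e)
    rw [sub_mul, one_mul, hex _ (huel y), sub_self, dag_sub, dag_one, hd] at h6
    rw [← h6]
    simp
  have h6 := hS _ h5
  rw [← act_eq] at h6
  have h8 : (act α (1 - e) : End W) = 1 - act α e := by rw [map_sub, map_one]
  have h9 : (1 : End W) - act α e = 0 := by rw [← h8]; exact h6
  rw [sub_eq_zero] at h9
  exact h9.symm

/-- The elements whose product with the parity is algebraic. -/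
noncomputable def pI {M : C} (a : G →* End M) : Ideal (MonoidAlgebra ℚ G) where
  carrier := {x | ∃ f : M ⟶ M, R.H.map f = R.par M ≫ R.H.map (act a x : M ⟶ M)}
  add_mem' := by
    rintro x y ⟨f, hf⟩ ⟨f', hf'⟩
    refine ⟨f + f', ?_⟩
    rw [R.H.map_add, hf, hf', map_add]
    have : R.H.map ((act a x + act a y : End M) : M ⟶ M) =
        R.H.map (act a x : M ⟶ M) + R.H.map (act a y : M ⟶ M) := R.H.map_add
    rw [this, Preadditive.comp_add]
  zero_mem' := by
    refine ⟨0, ?_⟩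
    rw [map_zero]
    have : R.H.map ((0 : End M) : M ⟶ M) = 0 := R.H.map_zero _ _
    rw [this, comp_zero]
  smul_mem' := by
    rintro x y ⟨f, hf⟩
    refine ⟨f ≫ (act a x : M ⟶ M), ?_⟩
    rw [smul_eq_mul, act_mul, R.H.map_comp, R.H.map_comp, hf, Category.assoc]

lemma pI_right {M : C} (a : G →* End M) : ∀ x ∈ pI R a, ∀ y, x * y ∈ pI R a := by
  rintro x ⟨f, hf⟩ y
  refine ⟨(act a y : M ⟶ M) ≫ f, ?_⟩
  rw [act_mul, R.H.map_comp, R.H.map_comp, hf, ← Category.assoc, ← Category.assoc, R.par_natural]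

/-- The sign conjecture for the factors of an isotrivial product. -/
theorem cplus_factor (hU : UnitQ C) {M N T : C} (a : G →* End M) (b : G →* End N)
    (hT : IsQuot (diag a b) ⊤ T) (hS : SeesOn a b) (hCT : R.CPlus T) (hCN : R.CPlus N) :
    R.CPlus M := by
  classical
  have hch := R_charZero R
  rw [cplus_iff] at hCT hCN ⊢
  obtain ⟨z, hz⟩ := hCT
  obtain ⟨g0, hg0⟩ := hCN
  obtain ⟨i, r, h2, h3⟩ := hT
  have huel : ∀ y : N ⟶ N, uel hU b y ∈ pI R a := by
    intro y
    refine ⟨ptr ((((Nat.card (⊤ : Subgroup G) : ℚ) • r) ≫ z ≫ i) ≫ M ◁ (g0 ≫ y)), ?_⟩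
    have h4 : μ R.H M N ≫ R.H.map ((((Nat.card (⊤ : Subgroup G) : ℚ) • r) ≫ z ≫ i) ≫
        M ◁ (g0 ≫ y)) ≫ δ R.H M N =
        ∑ g, ((R.H.map (a g : M ⟶ M) ≫ R.par M) ⊗ₘ R.H.map ((b g : N ⟶ N) ≫ y)) := by
      have e1 : R.H.map ((((Nat.card (⊤ : Subgroup G) : ℚ) • r) ≫ z ≫ i) ≫ M ◁ (g0 ≫ y)) =
          R.H.map (∑ g, ((a g : M ⟶ M) ⊗ₘ ((b g : N ⟶ N) ≫ g0 ≫ y))) ≫ R.par (M ⊗ N) := by
        have e2 : (Nat.card (⊤ : Subgroup G) : ℚ) • avg (diag a b) ⊤ =
            ∑ g, ((a g : M ⟶ M) ⊗ₘ (b g : N ⟶ N)) := by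
          unfold avg
          rw [smul_smul, mul_inv_cancel₀ (card_ne _), one_smul]
          refine Finset.sum_congr ?_ fun g _ => rfl
          ext g
          simp
        have e3 : ∑ g, ((a g : M ⟶ M) ⊗ₘ ((b g : N ⟶ N) ≫ g0 ≫ y)) =
            (((Nat.card (⊤ : Subgroup G) : ℚ) • r) ≫ i) ≫ M ◁ (g0 ≫ y) := by
          rw [Linear.smul_comp, h3, e2, Preadditive.sum_comp]
          refine Finset.sum_congr rfl fun g _ => ?_
          rw [MonoidalCategory.tensorHom_def, MonoidalCategory.tensorHom_def,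
            MonoidalCategory.whiskerLeft_comp, Category.assoc]
        rw [e3, R.H.map_comp, R.H.map_comp, R.H.map_comp, R.H.map_comp, hz, R.H.map_comp]
        simp only [Category.assoc]
        rw [R.par_natural, ← Category.assoc (R.H.map i), R.par_natural, Category.assoc]
      rw [e1, Category.assoc, R.H.map_sum, Preadditive.sum_comp, Preadditive.comp_sum]
      refine Finset.sum_congr rfl fun g _ => ?_
      have e4 : μ R.H M N ≫ R.H.map ((a g : M ⟶ M) ⊗ₘ ((b g : N ⟶ N) ≫ g0 ≫ y)) =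
          (R.H.map (a g : M ⟶ M) ⊗ₘ R.H.map ((b g : N ⟶ N) ≫ g0 ≫ y)) ≫ μ R.H M N :=
        (μ_natural R.H _ _).symm
      have e5 : μ R.H M N ≫ R.par (M ⊗ N) ≫ δ R.H M N = (R.par M ⊗ₘ R.par N) := by
        rw [← Category.assoc, R.par_tensor, Category.assoc, Functor.Monoidal.μ_δ,
          Category.comp_id]
      rw [← Category.assoc, e4, Category.assoc, e5, tensorHom_comp_tensorHom]
      congr 1
      rw [R.H.map_comp, R.H.map_comp, hg0, Category.assoc, Category.assoc, R.par_natural,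
        ← Category.assoc (R.par N), R.par_sq, Category.id_comp, R.H.map_comp]
    rw [map_ptr, h4, pt_sum]
    have h5 : (act a (uel hU b y) : M ⟶ M) =
        ∑ g, trq hU N ((b g : N ⟶ N) ≫ y : N ⟶ N) • (a g : M ⟶ M) := by
      unfold uel
      rw [act_sum]
    rw [h5, R.H.map_sum, Preadditive.comp_sum]
    refine Finset.sum_congr rfl fun g _ => ?_
    rw [Pool.Agent.Zk74.KC.pt_tensor, R_smul, Linear.comp_smul, ← R.par_natural, ← real_tr R hU]
  obtain ⟨e, ⟨f, hf⟩, he⟩ := act_eq_one hU a b hS (pI R a) (pI_right R a) huel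
  refine ⟨f, ?_⟩
  rw [hf, he, R.H.map_id, Category.comp_id]

end Pool.Agent.Zk74.KF
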