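import Pool.Agent.Zk74.KF.Prod

/-!
# Kimura finiteness of the factors of an isotrivial product
-/

set_option autoImplicit false
set_option linter.unusedSectionVars false
set_option backward.isDefEq.respectTransparency false
set_option backward.defeqAttrib.useBackward true

namespace Pool.Agent.Zk74.KF

open CategoryTheory Limits MonoidalCategory
open Pool.Agent.Y112.SR Pool.Agent.Y112.KD Pool.Agent.R905 Pool.Agent.Zk51.KT
open Pool.Agent.X252.GA Pool.Agent.Y116.MT Pool.Agent.Zk74.KG Pool.Agent.Zk74.KC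
open Functor.LaxMonoidal Functor.OplaxMonoidal

universe v u w

variable {C : Type u} [Category.{v} C] [Preadditive C] [Linear ℚ C] [MonoidalCategory C]
  [MonoidalPreadditive C] [MonoidalLinear ℚ C] [SymmetricCategory C] [RightRigidCategory C]
  [IsIdempotentComplete C] [HasBinaryBiproducts C] {K : Type w} [Field K]
  (R : SuperRealisation C K) {G : Type} [Group G] [Fintype G]

include R in
lemma trq_unit_ne (hU : UnitQ C) : trq hU (𝟙_ C) (1 : End (𝟙_ C)) ≠ 0 := by
  have hf := R.finite (𝟙_ C)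
  have hch := R_charZero R
  rw [trq_one R hU (1 : ℚ) (by rw [R.par_unit, Rat.cast_one, one_smul]), one_mul]
  intro h
  have h0 : Module.finrank K (R.H.obj (𝟙_ C)) = 0 := by exact_mod_cast h
  have hs : Subsingleton (R.H.obj (𝟙_ C)) := Module.finrank_zero_iff.1 h0
  have h2 : 𝟙 (R.H.obj (𝟙_ C)) = 0 := ModuleCat.hom_ext (LinearMap.ext fun x => Subsingleton.elim _ _)
  have h3 : 𝟙 (𝟙_ (ModuleCat.{w} K)) = 0 := by
    rw [← Functor.Monoidal.ε_η R.H, ← Category.id_comp (η R.H), h2, zero_comp, comp_zero]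
  have h4 := LinearMap.congr_fun (congrArg ModuleCat.Hom.hom h3) (1 : K)
  exact one_ne_zero (α := K) h4

include R in
theorem system (hU : UnitQ C) {M N T : C} (a : G →* End M) (b : G →* End N)
    (hT : IsQuot (diag a b) ⊤ T) (hS : SeesOn a b) (n : ℕ) :
    ∃ (Γ : Type) (_ : Group Γ) (_ : Fintype Γ) (α : Γ →* End (tp M n)) (β : Γ →* End (tp N n))
      (i : tp T n ⟶ tp M n ⊗ tp N n) (r : tp M n ⊗ tp N n ⟶ tp T n),
      i ≫ r = 𝟙 _ ∧ r ≫ i = avg (diag α β) ⊤ ∧ SeesOn α β := by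
  induction n with
  | zero =>
    refine ⟨Unit, inferInstance, inferInstance, 1, 1, (λ_ (𝟙_ C)).inv, (λ_ (𝟙_ C)).hom, ?_, ?_, ?_⟩
    · exact Iso.inv_hom_id _
    · rw [Iso.hom_inv_id, avg_top]
      have h1 : (diag (1 : Unit →* End (𝟙_ C)) (1 : Unit →* End (𝟙_ C)) () :
          𝟙_ C ⊗ 𝟙_ C ⟶ 𝟙_ C ⊗ 𝟙_ C) = 𝟙 _ := id_tensorHom_id _ _
      rw [Fintype.sum_unique, Fintype.card_unit, Nat.cast_one, inv_one, one_smul]
      exact h1.symm
    · intro c hc
      have h1 := (tr_zero_iff hU).1 (hc (𝟙 _))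
      rw [Fintype.sum_unique, Category.comp_id] at h1
      have h2 : trq hU (𝟙_ C) (c default • (1 : End (𝟙_ C))) = 0 := h1
      rw [map_smul, smul_eq_mul] at h2
      have h3 := (mul_eq_zero.1 h2).resolve_right (trq_unit_ne R hU)
      rw [Fintype.sum_unique, h3, zero_smul]
  | succ n ih =>
    obtain ⟨Γ, _, _, α, β, i, r, h1, h2, h3⟩ := ih
    obtain ⟨i', r', h1', h2'⟩ := hT
    obtain ⟨j, s, h4, h5⟩ := iso_prod α β a b h1 h2 h1' h2'
    exact ⟨Γ × G, inferInstance, inferInstance, pa α a, pa β b, j, s, h4, h5,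
      sees_prod R hU h3 hS⟩

include R in
theorem homNil_factor (hU : UnitQ C) {M N T : C} (a : G →* End M) (b : G →* End N)
    (hT : IsQuot (diag a b) ⊤ T) (hS : SeesOn a b) (hK : IsKimuraFinite T) (n : ℕ) :
    HomNil R (tp M n) := by
  obtain ⟨Γ, _, _, α, β, i, r, h1, h2, h3⟩ := system R hU a b hT hS n
  obtain ⟨S, ⟨-, -, k, hk⟩, hS2⟩ := dec_ideal R hU (dec_tp (dec_of_kimura hK) n)
  have hk' : S ^ (k + 1) = ⊥ := by rw [pow_succ, hk, Submodule.bot_mul]
  have h4 := fix_nil R hU α β h3 h1 h2 S hk' hS2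
  intro f hf
  exact inner_nil α (homJ R (tp M n)) (homJ_left R) (homJ_right R) h4 f hf

include R in
/-- **The fibre of a Kimura finite isotrivial product.** -/
theorem kf_factor (hU : UnitQ C) {M N T : C} (a : G →* End M) (b : G →* End N)
    (hT : IsQuot (diag a b) ⊤ T) (hS : SeesOn a b) (hK : IsKimuraFinite T) (hN : R.CPlus N) :
    IsKimuraFinite M :=
  kf_of_nil R hU (cplus_factor R hU a b hT hS (hK.cplus R) hN)
    fun n => homNil_factor R hU a b hT hS hK n

/-- Exchanging the factors. -/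
lemma quot_symm {M N T : C} (a : G →* End M) (b : G →* End N) (hT : IsQuot (diag a b) ⊤ T) :
    IsQuot (diag b a) ⊤ T := by
  obtain ⟨i, r, h1, h2⟩ := hT
  refine ⟨i ≫ (β_ M N).hom, (β_ M N).inv ≫ r, by simp [h1], ?_⟩
  have h3 : ((β_ M N).inv ≫ r) ≫ i ≫ (β_ M N).hom =
      (β_ M N).inv ≫ avg (diag a b) ⊤ ≫ (β_ M N).hom := by
    rw [← h2]
    simp only [Category.assoc]
  rw [h3, avg_top, avg_top, Linear.smul_comp, Linear.comp_smul, Preadditive.sum_comp,
    Preadditive.comp_sum]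
  congr 1
  refine Finset.sum_congr rfl fun g _ => ?_
  change (β_ M N).inv ≫ ((a g : M ⟶ M) ⊗ₘ (b g : N ⟶ N)) ≫ (β_ M N).hom =
    ((b g : N ⟶ N) ⊗ₘ (a g : M ⟶ M))
  rw [BraidedCategory.braiding_naturality, Iso.inv_hom_id_assoc]

end Pool.Agent.Zk74.KF
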