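import Pool.Agent.Zk74.KF.Ideal

/-!
# Products of isotrivial systems
-/

set_option autoImplicit false
set_option linter.unusedSectionVars false
set_option backward.isDefEq.respectTransparency false
set_option backward.defeqAttrib.useBackward true

namespace Pool.Agent.Zk74.KF

/-- A bilinear expression which vanishes after all linear forms in one variable. -/
lemma bil_zero {V X Y : Type*} [AddCommGroup V] [Module ℚ V] [AddCommGroup X] [Module ℚ X]
    [AddCommGroup Y] [Module ℚ Y] (B : V →ₗ[ℚ] X →ₗ[ℚ] Y) {ι : Type*} [Fintype ι] (v : ι → V)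
    (x : ι → X) (h : ∀ l : V →ₗ[ℚ] ℚ, ∑ i, l (v i) • x i = 0) : ∑ i, B (v i) (x i) = 0 := by
  classical
  let bs := Module.Basis.ofVectorSpace ℚ V
  let F : Finset (Module.Basis.ofVectorSpaceIndex ℚ V) := Finset.univ.biUnion fun i => (bs.repr (v i)).support
  have h1 : ∀ i, v i = ∑ k ∈ F, bs.repr (v i) k • bs k := by
    intro i
    conv_lhs => rw [← bs.linearCombination_repr (v i), Finsupp.linearCombination_apply]
    rw [Finsupp.sum]
    refine Finset.sum_subset ?_ ?_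
    · intro k hk
      exact Finset.mem_biUnion.2 ⟨i, Finset.mem_univ i, hk⟩
    · intro k _ hk
      rw [Finsupp.notMem_support_iff.1 hk, zero_smul]
  have h2 : ∀ i, B (v i) (x i) = ∑ k ∈ F, B (bs k) (bs.repr (v i) k • x i) := by
    intro i
    conv_lhs => rw [h1 i]
    rw [map_sum, LinearMap.sum_apply]
    refine Finset.sum_congr rfl fun k _ => ?_
    rw [map_smul, LinearMap.smul_apply, map_smul]
  rw [Finset.sum_congr rfl fun i _ => h2 i, Finset.sum_comm]
  refine Finset.sum_eq_zero fun k _ => ?_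
  rw [← map_sum, show ∑ i, bs.repr (v i) k • x i = 0 from h (bs.coord k), map_zero]

open CategoryTheory Limits MonoidalCategory
open Pool.Agent.Y112.SR Pool.Agent.Y112.KD Pool.Agent.R905 Pool.Agent.Zk51.KT
open Pool.Agent.X252.GA Pool.Agent.Y116.MT Pool.Agent.Zk74.KG Pool.Agent.Zk74.KC

universe v u w

variable {C : Type u} [Category.{v} C] [Preadditive C] [Linear ℚ C] [MonoidalCategory C]
  [MonoidalPreadditive C] [MonoidalLinear ℚ C] [SymmetricCategory C] [RightRigidCategory C]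
  [IsIdempotentComplete C] [HasBinaryBiproducts C] {K : Type w} [Field K]
  (R : SuperRealisation C K) {G G' : Type} [Group G] [Fintype G] [Group G'] [Fintype G']

/-- The product action on a tensor product. -/
def pa {M M' : C} (a : G →* End M) (a' : G' →* End M') : G × G' →* End (M ⊗ M') where
  toFun p := (a p.1 : M ⟶ M) ⊗ₘ (a' p.2 : M' ⟶ M')
  map_one' := by
    rw [Prod.fst_one, Prod.snd_one, map_one, map_one]
    exact id_tensorHom_id M M'
  map_mul' p q := by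
    rw [Prod.fst_mul, Prod.snd_mul, map_mul, map_mul, End.mul_def, End.mul_def, End.mul_def]
    exact (tensorHom_comp_tensorHom _ _ _ _).symm

/-- The bilinear map of the tensor product of endomorphisms. -/
def tbil (M M' : C) : End M →ₗ[ℚ] End M' →ₗ[ℚ] End (M ⊗ M') :=
  LinearMap.mk₂ ℚ (fun f g => ((f : M ⟶ M) ⊗ₘ (g : M' ⟶ M') : M ⊗ M' ⟶ M ⊗ M'))
    (fun f f' g => by
      change ((f : M ⟶ M) + (f' : M ⟶ M)) ⊗ₘ (g : M' ⟶ M') = _
      rw [MonoidalCategory.tensorHom_def, MonoidalPreadditive.add_whiskerRight,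
        Preadditive.add_comp, ← MonoidalCategory.tensorHom_def, ← MonoidalCategory.tensorHom_def])
    (fun c f g => by
      change (c • (f : M ⟶ M)) ⊗ₘ (g : M' ⟶ M') = _
      rw [MonoidalCategory.tensorHom_def, MonoidalLinear.smul_whiskerRight, Linear.smul_comp,
        ← MonoidalCategory.tensorHom_def])
    (fun f g g' => by
      change (f : M ⟶ M) ⊗ₘ ((g : M' ⟶ M') + (g' : M' ⟶ M')) = _
      rw [MonoidalCategory.tensorHom_def, MonoidalPreadditive.whiskerLeft_add,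
        Preadditive.comp_add, ← MonoidalCategory.tensorHom_def, ← MonoidalCategory.tensorHom_def])
    (fun c f g => by
      change (f : M ⟶ M) ⊗ₘ (c • (g : M' ⟶ M')) = _
      rw [MonoidalCategory.tensorHom_def, MonoidalLinear.whiskerLeft_smul, Linear.comp_smul,
        ← MonoidalCategory.tensorHom_def])

lemma tbil_apply {M M' : C} (f : M ⟶ M) (g : M' ⟶ M') : tbil M M' f g = f ⊗ₘ g := rfl

include R in
lemma trq_tensor (hU : UnitQ C) {M M' : C} (f : M ⟶ M) (g : M' ⟶ M') :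
    trq hU (M ⊗ M') (f ⊗ₘ g : M ⊗ M' ⟶ M ⊗ M') =
      trq hU M (f : M ⟶ M) * trq hU M' (g : M' ⟶ M') := by
  rw [← trq_ptr R hU, ptr_tensor f g _ (trq_spec hU _)]
  refine ((trq hU M).map_smul _ _).trans ?_
  rw [smul_eq_mul, mul_comm]

include R in
/-- Representations in tensor products. -/
theorem sees_prod (hU : UnitQ C) {M N M' N' : C} {a : G →* End M} {b : G →* End N}
    {a' : G' →* End M'} {b' : G' →* End N'} (hS : SeesOn a b) (hS' : SeesOn a' b') :
    SeesOn (pa a a') (pa b b') := by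
  classical
  intro c hc
  have h1 : ∀ (u : N ⟶ N) (u' : N' ⟶ N'), ∑ g, ∑ g', c (g, g') *
      (trq hU N ((b g : N ⟶ N) ≫ u : N ⟶ N) * trq hU N' ((b' g' : N' ⟶ N') ≫ u' : N' ⟶ N')) = 0 := by
    intro u u'
    have h2 := (tr_zero_iff hU).1 (hc (u ⊗ₘ u'))
    rw [Preadditive.sum_comp] at h2
    have h3 := (map_sum (trq hU (N ⊗ N')) (fun p : G × G' =>
      ((c p • (pa b b' p : N ⊗ N' ⟶ N ⊗ N')) ≫ (u ⊗ₘ u') : N ⊗ N' ⟶ N ⊗ N')) Finset.univ)
    rw [← Fintype.sum_prod_type']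
    refine Eq.trans ?_ h2
    refine Eq.trans ?_ h3.symm
    refine Finset.sum_congr rfl fun p _ => ?_
    rw [Linear.smul_comp]
    have h4 : (pa b b' p : N ⊗ N' ⟶ N ⊗ N') ≫ (u ⊗ₘ u') =
        (((b p.1 : N ⟶ N) ≫ u) ⊗ₘ ((b' p.2 : N' ⟶ N') ≫ u')) :=
      tensorHom_comp_tensorHom _ _ _ _
    rw [h4]
    refine Eq.trans ?_ ((trq hU (N ⊗ N')).map_smul (c p) _).symm
    rw [trq_tensor R, smul_eq_mul]
  have h2 : ∀ u' : N' ⟶ N', ∑ g, (∑ g', c (g, g') *
      trq hU N' ((b' g' : N' ⟶ N') ≫ u' : N' ⟶ N')) • (a g : M ⟶ M) = 0 := by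
    intro u'
    refine hS _ fun u => ?_
    rw [tr_zero_iff hU, Preadditive.sum_comp]
    refine ((map_sum (trq hU N) (fun g : G => (((∑ g', c (g, g') *
      trq hU N' ((b' g' : N' ⟶ N') ≫ u' : N' ⟶ N')) • (b g : N ⟶ N)) ≫ u : N ⟶ N))
      Finset.univ)).trans ?_
    rw [← h1 u u']
    refine Finset.sum_congr rfl fun g _ => ?_
    rw [Linear.smul_comp]
    refine ((trq hU N).map_smul _ _).trans ?_
    rw [smul_eq_mul, Finset.sum_mul]
    refine Finset.sum_congr rfl fun g' _ => ?_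
    ring
  have h3 : ∀ l : End M →ₗ[ℚ] ℚ, ∑ g', (∑ g, c (g, g') * l (a g)) • (a' g' : M' ⟶ M') = 0 := by
    intro l
    refine hS' _ fun u' => ?_
    rw [tr_zero_iff hU, Preadditive.sum_comp]
    refine ((map_sum (trq hU N') (fun g' : G' => (((∑ g, c (g, g') * l (a g)) •
      (b' g' : N' ⟶ N')) ≫ u' : N' ⟶ N')) Finset.univ)).trans ?_
    have h4 := congrArg l (h2 u')
    rw [map_zero] at h4
    rw [← h4]
    refine Eq.trans ?_ (map_sum l (fun g : G => ((∑ g', c (g, g') *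
      trq hU N' ((b' g' : N' ⟶ N') ≫ u' : N' ⟶ N')) • (a g : M ⟶ M) : M ⟶ M)) Finset.univ).symm
    have e1 : ∀ g' : G', trq hU N' ((((∑ g, c (g, g') * l (a g)) • (b' g' : N' ⟶ N')) ≫ u' :
        N' ⟶ N')) = ∑ g, c (g, g') * l (a g) * trq hU N' ((b' g' : N' ⟶ N') ≫ u' : N' ⟶ N') := by
      intro g'
      rw [Linear.smul_comp]
      refine ((trq hU N').map_smul _ _).trans ?_
      rw [smul_eq_mul, Finset.sum_mul]
    have e2 : ∀ g : G, l ((∑ g', c (g, g') * trq hU N' ((b' g' : N' ⟶ N') ≫ u' : N' ⟶ N')) •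
        (a g : M ⟶ M) : M ⟶ M) =
        ∑ g', c (g, g') * l (a g) * trq hU N' ((b' g' : N' ⟶ N') ≫ u' : N' ⟶ N') := by
      intro g
      refine (l.map_smul _ _).trans ?_
      rw [smul_eq_mul, Finset.sum_mul]
      refine Finset.sum_congr rfl fun g' _ => ?_
      ring
    refine (Finset.sum_congr rfl fun g' _ => e1 g').trans ?_
    refine Eq.trans ?_ (Finset.sum_congr rfl fun g _ => e2 g).symm
    exact Finset.sum_comm
  have h4 := bil_zero (tbil M M') (fun g => a g)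
    (fun g => ∑ g', c (g, g') • a' g') (fun l => by
      rw [← h3 l]
      have e1 : ∀ g, l (a g) • ∑ g', c (g, g') • a' g' = ∑ g', (c (g, g') * l (a g)) • a' g' := by
        intro g
        rw [Finset.smul_sum]
        refine Finset.sum_congr rfl fun g' _ => ?_
        rw [smul_smul, mul_comm]
      rw [Finset.sum_congr rfl fun g _ => e1 g, Finset.sum_comm]
      refine Finset.sum_congr rfl fun g' _ => ?_
      exact (Finset.sum_smul (M := End M')).symm)
  rw [← h4, Fintype.sum_prod_type]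
  refine Finset.sum_congr rfl fun g _ => ?_
  rw [map_sum]
  refine Finset.sum_congr rfl fun g' _ => ?_
  rw [map_smul]
  rfl

lemma avg_top {M : C} (a : G →* End M) :
    avg a ⊤ = (Fintype.card G : ℚ)⁻¹ • ∑ g, (a g : M ⟶ M) := by
  classical
  unfold avg
  rw [Subgroup.card_top, Nat.card_eq_fintype_card]
  congr 1
  refine Finset.sum_congr ?_ fun g _ => rfl
  ext g
  simp

/-- The product of two isotrivial systems. -/
theorem iso_prod {W U Q W' U' Q' : C} (α : G →* End W) (β : G →* End U) (α' : G' →* End W')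
    (β' : G' →* End U') {i : Q ⟶ W ⊗ U} {r : W ⊗ U ⟶ Q} (hir : i ≫ r = 𝟙 Q)
    (hri : r ≫ i = avg (diag α β) ⊤) {i' : Q' ⟶ W' ⊗ U'} {r' : W' ⊗ U' ⟶ Q'}
    (hir' : i' ≫ r' = 𝟙 Q') (hri' : r' ≫ i' = avg (diag α' β') ⊤) :
    ∃ (j : Q ⊗ Q' ⟶ (W ⊗ W') ⊗ (U ⊗ U')) (s : (W ⊗ W') ⊗ (U ⊗ U') ⟶ Q ⊗ Q'),
      j ≫ s = 𝟙 _ ∧ s ≫ j = avg (diag (pa α α') (pa β β')) ⊤ := by
  classical
  refine ⟨(i ⊗ₘ i') ≫ tensorμ W U W' U', tensorδ W U W' U' ≫ (r ⊗ₘ r'), ?_, ?_⟩
  · rw [Category.assoc, ← Category.assoc (tensorμ _ _ _ _), tensorμ_tensorδ, Category.id_comp,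
      tensorHom_comp_tensorHom, hir, hir', id_tensorHom_id]
  · have h1 : (tensorδ W U W' U' ≫ (r ⊗ₘ r')) ≫ (i ⊗ₘ i') ≫ tensorμ W U W' U' =
        tensorδ W U W' U' ≫ (avg (diag α β) ⊤ ⊗ₘ avg (diag α' β') ⊤) ≫ tensorμ W U W' U' := by
      rw [← hri, ← hri', ← tensorHom_comp_tensorHom]
      simp only [Category.assoc]
    rw [h1, avg_top, avg_top, avg_top]
    have h2 : (((Fintype.card G : ℚ)⁻¹ • ∑ g, (diag α β g : W ⊗ U ⟶ W ⊗ U)) ⊗ₘ
        ((Fintype.card G' : ℚ)⁻¹ • ∑ g', (diag α' β' g' : W' ⊗ U' ⟶ W' ⊗ U'))) =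
        ((Fintype.card (G × G') : ℚ)⁻¹) • ∑ g, ∑ g', (((α g : W ⟶ W) ⊗ₘ (β g : U ⟶ U)) ⊗ₘ
          ((α' g' : W' ⟶ W') ⊗ₘ (β' g' : U' ⟶ U'))) := by
      have e1 := (tbil (W ⊗ U) (W' ⊗ U')).map_smul₂ (Fintype.card G : ℚ)⁻¹
        (∑ g, diag α β g) ((Fintype.card G' : ℚ)⁻¹ • ∑ g', diag α' β' g')
      refine e1.trans ?_
      rw [map_smul, smul_smul, Fintype.card_prod, Nat.cast_mul, mul_inv]
      congr 1
      rw [map_sum, Finset.sum_comm]
      refine Finset.sum_congr rfl fun g' _ => ?_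
      rw [LinearMap.map_sum₂]
      exact Finset.sum_congr rfl fun g _ => rfl
    rw [h2, Linear.smul_comp, Linear.comp_smul, Fintype.sum_prod_type]
    congr 1
    rw [Preadditive.sum_comp, Preadditive.comp_sum]
    refine Finset.sum_congr rfl fun g _ => ?_
    rw [Preadditive.sum_comp, Preadditive.comp_sum]
    refine Finset.sum_congr rfl fun g' _ => ?_
    rw [tensorμ_natural, ← Category.assoc, tensorδ_tensorμ, Category.id_comp]
    rfl

end Pool.Agent.Zk74.KF
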