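import Pool.Agent.Zk74.KF.Main

/-!
# The sign conjecture for the factors, with rational traces
-/

set_option autoImplicit false
set_option linter.unusedSectionVars false
set_option backward.isDefEq.respectTransparency false
set_option backward.defeqAttrib.useBackward true

namespace Pool.Agent.Zk74.KF

open CategoryTheory Limits MonoidalCategory
open Pool.Agent.Y112.SR Pool.Agent.Y112.KD Pool.Agent.R905 Pool.Agent.Zk51.KT
open Pool.Agent.X252.GA Pool.Agent.Y116.MT Pool.Agent.Zk74.KG Pool.Agent.Zk74.KC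
open Functor.LaxMonoidal Functor.OplaxMonoidal

universe v u w

variable {C : Type u} [Category.{v} C] [Preadditive C] [Linear ℚ C] [MonoidalCategory C]
  [MonoidalPreadditive C] [MonoidalLinear ℚ C] [SymmetricCategory C] [RightRigidCategory C]
  [IsIdempotentComplete C] [HasBinaryBiproducts C] {K : Type w} [Field K]
  (R : SuperRealisation C K) {G : Type} [Group G] [Fintype G]

/-- The sign conjecture for the factors of an isotrivial product, if the traces of the group on the
realisation of the other factor are rational. -/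
theorem cplus_factor_rat (hU : UnitQ C) {M N T : C} (a : G →* End M) (b : G →* End N)
    (hT : IsQuot (diag a b) ⊤ T) (hS : SeesOn a b) (hCT : R.CPlus T)
    (hb : ∀ g, ∃ q : ℚ, LinearMap.trace K (R.H.obj N) (R.H.map (b g : N ⟶ N)).hom = (q : K)) :
    R.CPlus M := by
  classical
  have hch := R_charZero R
  have hfin := R.finite N
  rw [cplus_iff] at hCT ⊢
  obtain ⟨z, hz⟩ := hCT
  obtain ⟨i, r, h2, h3⟩ := hT
  choose q hq using hb
  obtain ⟨x, hx⟩ := exists_coeff q
  have hxI : x ∈ pI R a := by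
    refine ⟨ptr (((Nat.card (⊤ : Subgroup G) : ℚ) • r) ≫ z ≫ i), ?_⟩
    have h4 : μ R.H M N ≫ R.H.map (((Nat.card (⊤ : Subgroup G) : ℚ) • r) ≫ z ≫ i) ≫ δ R.H M N =
        ∑ g, ((R.H.map (a g : M ⟶ M) ≫ R.par M) ⊗ₘ (R.H.map (b g : N ⟶ N) ≫ R.par N)) := by
      have e1 : R.H.map (((Nat.card (⊤ : Subgroup G) : ℚ) • r) ≫ z ≫ i) =
          R.H.map (∑ g, ((a g : M ⟶ M) ⊗ₘ (b g : N ⟶ N))) ≫ R.par (M ⊗ N) := by
        have e2 : (Nat.card (⊤ : Subgroup G) : ℚ) • avg (diag a b) ⊤ =
            ∑ g, ((a g : M ⟶ M) ⊗ₘ (b g : N ⟶ N)) := by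
          unfold avg
          rw [smul_smul, mul_inv_cancel₀ (card_ne _), one_smul]
          refine Finset.sum_congr ?_ fun g _ => rfl
          ext g
          simp
        rw [← e2, ← h3, ← Linear.smul_comp, R.H.map_comp, R.H.map_comp, hz, R.H.map_comp,
          Category.assoc, R.par_natural]
      rw [e1, Category.assoc, R.H.map_sum, Preadditive.sum_comp, Preadditive.comp_sum]
      refine Finset.sum_congr rfl fun g _ => ?_
      have e4 : μ R.H M N ≫ R.H.map ((a g : M ⟶ M) ⊗ₘ (b g : N ⟶ N)) =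
          (R.H.map (a g : M ⟶ M) ⊗ₘ R.H.map (b g : N ⟶ N)) ≫ μ R.H M N :=
        (μ_natural R.H _ _).symm
      have e5 : μ R.H M N ≫ R.par (M ⊗ N) ≫ δ R.H M N = (R.par M ⊗ₘ R.par N) := by
        rw [← Category.assoc, R.par_tensor, Category.assoc, Functor.Monoidal.μ_δ,
          Category.comp_id]
      rw [← Category.assoc, e4, Category.assoc, e5, tensorHom_comp_tensorHom]
    rw [map_ptr, h4, pt_sum, act_eq, R.H.map_sum, Preadditive.comp_sum]
    refine Finset.sum_congr rfl fun g _ => ?_
    rw [Pool.Agent.Zk74.KC.pt_tensor, R_smul, Linear.comp_smul, ← R.par_natural, Category.assoc,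
      R.par_sq, Category.comp_id, hq, hx]
  obtain ⟨e, he, hi, hex, -, hd⟩ := exists_central (pI R a) (pI_right R a)
  have h5 : (1 - e) * x = 0 := by rw [sub_mul, one_mul, hex x hxI, sub_self]
  -- the trace of the idempotent `1 - e` on the realisation of `N`
  have h6 : LinearMap.trace K (R.H.obj N) (R.H.map (act b (1 - e) : N ⟶ N)).hom = 0 := by
    have e1 : R.H.map (act b (1 - e) : N ⟶ N) =
        ∑ g, (((1 - e : MonoidAlgebra ℚ G).coeff g : ℚ) : K) • R.H.map (b g : N ⟶ N) := by
      rw [act_eq, R.H.map_sum]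
      exact Finset.sum_congr rfl fun g _ => R_smul R _ _
    have e2 : LinearMap.trace K (R.H.obj N) (R.H.map (act b (1 - e) : N ⟶ N)).hom =
        ∑ g, (((1 - e : MonoidAlgebra ℚ G).coeff g : ℚ) : K) * (q g : K) := by
      rw [e1, ModuleCat.hom_sum, map_sum]
      refine Finset.sum_congr rfl fun g _ => ?_
      rw [ModuleCat.hom_smul, map_smul, hq, smul_eq_mul]
    have e3 : ∑ g, (1 - e : MonoidAlgebra ℚ G).coeff g * q g = 0 := by
      have e4 : ((1 - e) * x).coeff 1 = 0 := by rw [h5]; simp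
      rw [coeff_mul'] at e4
      rw [← e4]
      have hd' : dag (1 - e) = 1 - e := by rw [dag_sub, dag_one, hd]
      refine Fintype.sum_equiv (Equiv.inv G) _ _ fun g => ?_
      rw [Equiv.inv_apply, inv_inv, mul_one, hx]
      congr 1
      conv_lhs => rw [← hd']
      rw [coeff_dag]
    rw [e2]
    exact_mod_cast e3
  have h7 : R.H.map (act b (1 - e) : N ⟶ N) = 0 := by
    have h8 : IsIdempotentElem (R.H.map (act b (1 - e) : N ⟶ N)).hom := by
      have h9 : R.H.map (act b (1 - e) : N ⟶ N) ≫ R.H.map (act b (1 - e) : N ⟶ N) =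
          R.H.map (act b (1 - e) : N ⟶ N) := by
        rw [← R.H.map_comp, ← act_mul, hi.one_sub.eq]
      have h10 := congrArg ModuleCat.Hom.hom h9
      rw [ModuleCat.hom_comp] at h10
      exact h10
    exact ModuleCat.hom_ext (LinearMap.IsIdempotentElem.eq_zero_of_trace_eq_zero h8 h6)
  have h8 := hS (fun g => (1 - e : MonoidAlgebra ℚ G).coeff g) (fun y => by
    rw [← act_eq, tr_zero_iff hU]
    have h9 := real_tr R hU ((act b (1 - e) : N ⟶ N) ≫ y)
    rw [R.H.map_comp, h7, zero_comp, zero_comp] at h9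
    rw [show (ModuleCat.Hom.hom (0 : R.H.obj N ⟶ R.H.obj N)) = 0 from rfl, map_zero] at h9
    exact_mod_cast h9)
  rw [← act_eq] at h8
  have h9 : (act a e : M ⟶ M) = 𝟙 M := by
    have h10 : (act a (1 - e) : End M) = 1 - act a e := by rw [map_sub, map_one]
    have h11 : (1 : End M) - act a e = 0 := by rw [← h10]; exact h8
    rw [sub_eq_zero] at h11
    exact h11.symm
  obtain ⟨f, hf⟩ := he
  exact ⟨f, by rw [hf, h9, R.H.map_id, Category.comp_id]⟩

include R in
/-- **The fibre of a Kimura finite isotrivial product**, with rational traces. -/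
theorem kf_factor_rat (hU : UnitQ C) {M N T : C} (a : G →* End M) (b : G →* End N)
    (hT : IsQuot (diag a b) ⊤ T) (hS : SeesOn a b) (hK : IsKimuraFinite T)
    (hb : ∀ g, ∃ q : ℚ, LinearMap.trace K (R.H.obj N) (R.H.map (b g : N ⟶ N)).hom = (q : K)) :
    IsKimuraFinite M :=
  kf_of_nil R hU (cplus_factor_rat R hU a b hT hS (hK.cplus R) hb)
    fun n => homNil_factor R hU a b hT hS hK n

end Pool.Agent.Zk74.KF
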