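import Pool.Agent.Zk74.KF.Rat

/-!
# Quotients of the fibre of a Kimura finite isotrivial product
-/

set_option autoImplicit false
set_option linter.unusedSectionVars false
set_option backward.isDefEq.respectTransparency false
set_option backward.defeqAttrib.useBackward true

namespace Pool.Agent.Zk74.KF

open CategoryTheory Limits MonoidalCategory
open Pool.Agent.Y112.SR Pool.Agent.Y112.KD Pool.Agent.R905 Pool.Agent.Zk51.KT
open Pool.Agent.X252.GA Pool.Agent.Y116.MT Pool.Agent.Zk74.KG Pool.Agent.Zk74.KC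

universe v u w

variable {C : Type u} [Category.{v} C] [Preadditive C] [Linear ℚ C] [MonoidalCategory C]
  [MonoidalPreadditive C] [MonoidalLinear ℚ C] [SymmetricCategory C] [RightRigidCategory C]
  [IsIdempotentComplete C] [HasBinaryBiproducts C] {K : Type w} [Field K]
  (R : SuperRealisation C K) {G : Type} [Group G] [Fintype G]

/-- The action on a summand cut out by an equivariant projector. -/
def cut {M M' : C} (a : G →* End M) (i0 : M' ⟶ M) (r0 : M ⟶ M') (h1 : i0 ≫ r0 = 𝟙 M')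
    (h2 : ∀ g, (r0 ≫ i0) ≫ (a g : M ⟶ M) = (a g : M ⟶ M) ≫ r0 ≫ i0) : G →* End M' where
  toFun g := i0 ≫ (a g : M ⟶ M) ≫ r0
  map_one' := by
    rw [map_one]
    change i0 ≫ 𝟙 M ≫ r0 = 𝟙 M'
    rw [Category.id_comp, h1]
  map_mul' g h := by
    rw [map_mul, End.mul_def, End.mul_def]
    have e1 : i0 ≫ (a h : M ⟶ M) ≫ (a g : M ⟶ M) ≫ r0 =
        i0 ≫ (r0 ≫ i0) ≫ (a h : M ⟶ M) ≫ (a g : M ⟶ M) ≫ r0 := by
      rw [← Category.assoc i0 (r0 ≫ i0), ← Category.assoc i0 r0 i0, h1, Category.id_comp]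
    calc i0 ≫ ((a h : M ⟶ M) ≫ (a g : M ⟶ M)) ≫ r0
        = i0 ≫ (a h : M ⟶ M) ≫ (a g : M ⟶ M) ≫ r0 := by simp only [Category.assoc]
      _ = i0 ≫ ((r0 ≫ i0) ≫ (a h : M ⟶ M)) ≫ (a g : M ⟶ M) ≫ r0 := by
          rw [e1]; simp only [Category.assoc]
      _ = i0 ≫ ((a h : M ⟶ M) ≫ r0 ≫ i0) ≫ (a g : M ⟶ M) ≫ r0 := by rw [h2]
      _ = (i0 ≫ (a h : M ⟶ M) ≫ r0) ≫ i0 ≫ (a g : M ⟶ M) ≫ r0 := by
          simp only [Category.assoc]

include R in
theorem seen_part (hU : UnitQ C) {M N T : C} (a : G →* End M) (b : G →* End N)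
    (hT : IsQuot (diag a b) ⊤ T) (hK : IsKimuraFinite T)
    (hF : ∀ (M' T' : C) (a' : G →* End M'), IsQuot (diag a' b) ⊤ T' → SeesOn a' b →
      IsKimuraFinite T' → IsKimuraFinite M') {H : Subgroup G} (hs : SeesNum b H) {Q : C}
    (hQ : IsQuot a H Q) : IsKimuraFinite Q := by
  classical
  obtain ⟨e, he, hi, hex, hc, hd⟩ := exists_central (nI R hU b) (nI_right R hU b)
  have hcomm : ∀ x : MonoidAlgebra ℚ G, (act a (1 - e) : M ⟶ M) ≫ (act a x : M ⟶ M) =
      (act a x : M ⟶ M) ≫ (act a (1 - e) : M ⟶ M) := by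
    intro x
    have h : x * (1 - e) = (1 - e) * x := by rw [mul_sub, sub_mul, mul_one, one_mul, hc]
    rw [← act_mul, ← act_mul, h]
  obtain ⟨M', i0, r0, h1, h2⟩ := IsIdempotentComplete.idempotents_split M
    (act a (1 - e) : M ⟶ M) (by rw [← act_mul, hi.one_sub.eq])
  have hcg : ∀ g, (r0 ≫ i0) ≫ (a g : M ⟶ M) = (a g : M ⟶ M) ≫ r0 ≫ i0 := by
    intro g
    have := hcomm (MonoidAlgebra.single g 1)
    rw [act_single, one_smul] at this
    rw [h2]
    exact this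
  -- the action on the seen part
  have hact : ∀ x : MonoidAlgebra ℚ G, (act (cut a i0 r0 h1 hcg) x : M' ⟶ M') =
      i0 ≫ (act a x : M ⟶ M) ≫ r0 := by
    intro x
    rw [act_eq, act_eq, Preadditive.sum_comp, Preadditive.comp_sum]
    refine Finset.sum_congr rfl fun g _ => ?_
    rw [Linear.smul_comp, Linear.comp_smul]
    rfl
  have hr0 : (act a (1 - e) : M ⟶ M) ≫ r0 = r0 := by
    rw [← h2, Category.assoc, h1, Category.comp_id]
  have hS : SeesOn (cut a i0 r0 h1 hcg) b := by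
    intro c hc'
    obtain ⟨x, hx⟩ := exists_coeff c
    have h3 : x ∈ nI R hU b := by
      rw [← dag_dag x]
      refine dag_mem _ (nI_right R hU b) ?_
      rw [mem_nI]
      intro y
      rw [dag_dag, act_eq]
      simp only [hx]
      exact (tr_zero_iff hU).1 (hc' y)
    have h4 : (act (cut a i0 r0 h1 hcg) x : M' ⟶ M') = 0 := by
      rw [hact, ← hex x h3, act_mul]
      have h5 : (act a e : M ⟶ M) ≫ r0 = 0 := by
        rw [← hr0, ← Category.assoc, ← act_mul]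
        have : (1 - e) * e = 0 := by rw [sub_mul, one_mul, hi.eq, sub_self]
        rw [this, map_zero]
        exact zero_comp
      rw [Category.assoc, h5, comp_zero, comp_zero]
    rw [act_eq] at h4
    simp only [hx] at h4
    exact h4
  obtain ⟨T', hT'⟩ := exists_quot (diag (cut a i0 r0 h1 hcg) b) ⊤
  have hKT' : IsKimuraFinite T' := by
    obtain ⟨i, r, k1, k2⟩ := hT
    obtain ⟨i', r', l1, l2⟩ := hT'
    refine hK.retract R hU (i' ≫ i0 ▷ N ≫ r) (i ≫ r0 ▷ N ≫ r') ?_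
    have h5 : i0 ▷ N ≫ avg (diag a b) ⊤ ≫ r0 ▷ N = avg (diag (cut a i0 r0 h1 hcg) b) ⊤ := by
      rw [avg_top, avg_top, Linear.smul_comp, Linear.comp_smul, Preadditive.sum_comp,
        Preadditive.comp_sum]
      congr 1
      refine Finset.sum_congr rfl fun g _ => ?_
      change i0 ▷ N ≫ ((a g : M ⟶ M) ⊗ₘ (b g : N ⟶ N)) ≫ r0 ▷ N =
        ((i0 ≫ (a g : M ⟶ M) ≫ r0) ⊗ₘ (b g : N ⟶ N))
      rw [← tensorHom_id, ← tensorHom_id, tensorHom_comp_tensorHom, tensorHom_comp_tensorHom,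
        Category.id_comp, Category.comp_id]
    calc (i' ≫ i0 ▷ N ≫ r) ≫ i ≫ r0 ▷ N ≫ r'
        = i' ≫ (i0 ▷ N ≫ (r ≫ i) ≫ r0 ▷ N) ≫ r' := by simp only [Category.assoc]
      _ = (i' ≫ r') ≫ i' ≫ r' := by rw [k2, h5, ← l2]; simp only [Category.assoc]
      _ = 𝟙 T' := by rw [l1, Category.comp_id]
  have hM' := hF M' T' _ hT' hS hKT'
  obtain ⟨iQ, rQ, q1, q2⟩ := hQ
  refine hM'.retract R hU (iQ ≫ r0) (i0 ≫ rQ) ?_
  have h6 : (1 - e) * nA H = nA H := by
    have h7 : e * nA H = 0 := by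
      apply ext'
      intro g
      rw [coeff_mul_nA, hs (fun g => e.coeff g) (fun y => by
        rw [← act_dag N b e]
        exact (tr_zero_iff hU).2 (he y)) g]
      simp
    rw [sub_mul, one_mul, h7, sub_zero]
  have h8 : avg a H ≫ (act a (1 - e) : M ⟶ M) = avg a H := by
    rw [avg_eq, Linear.smul_comp, ← act_mul, h6]
  calc (iQ ≫ r0) ≫ i0 ≫ rQ = iQ ≫ (r0 ≫ i0) ≫ rQ := by simp only [Category.assoc]
    _ = (iQ ≫ rQ) ≫ iQ ≫ (act a (1 - e) : M ⟶ M) ≫ rQ := by rw [q1, h2, Category.id_comp]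
    _ = iQ ≫ (avg a H ≫ (act a (1 - e) : M ⟶ M)) ≫ rQ := by
        rw [← q2]; simp only [Category.assoc]
    _ = (iQ ≫ rQ) ≫ iQ ≫ rQ := by rw [h8, ← q2]; simp only [Category.assoc]
    _ = 𝟙 Q := by rw [q1, Category.comp_id]

end Pool.Agent.Zk74.KF
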