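import Mathlib.RingTheory.SimpleModule.IsAlgClosed
import Mathlib.RepresentationTheory.Maschke
import Mathlib.RingTheory.Flat.Basic
import Mathlib.FieldTheory.IsAlgClosed.AlgebraicClosure
import Mathlib.Tactic

/-!
# Matrix units of split semisimple algebras
-/

set_option autoImplicit false

namespace Pool.Agent.Zk74.KF

open Finset

lemma mat_left {F : Type} [Field F] {n : ℕ} (M : Matrix (Fin n) (Fin n) F) (a b : Fin n) :
    M * Matrix.single a b 1 = ∑ c, M c a • Matrix.single c b (1 : F) := by
  classical
  ext x y
  rw [Matrix.sum_apply, Matrix.mul_apply]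
  simp only [Matrix.single_apply, Matrix.smul_apply, smul_eq_mul, mul_ite, mul_one, mul_zero]
  rw [Finset.sum_eq_single a, Finset.sum_eq_single x]
  · simp
  · intro c _ hc
    rw [if_neg (fun h => hc h.1)]
  · intro h
    exact absurd (mem_univ _) h
  · intro c _ hc
    rw [if_neg (fun h => hc h.1.symm)]
  · intro h
    exact absurd (mem_univ _) h

lemma mat_right {F : Type} [Field F] {n : ℕ} (M : Matrix (Fin n) (Fin n) F) (a b : Fin n) :
    Matrix.single a b 1 * M = ∑ c, M b c • Matrix.single a c (1 : F) := by
  classical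
  ext x y
  rw [Matrix.sum_apply, Matrix.mul_apply]
  simp only [Matrix.single_apply, Matrix.smul_apply, smul_eq_mul, mul_ite, mul_one, mul_zero,
    ite_mul, one_mul, zero_mul]
  rw [Finset.sum_eq_single b, Finset.sum_eq_single y]
  · simp
  · intro c _ hc
    rw [if_neg (fun h => hc h.2)]
  · intro h
    exact absurd (mem_univ _) h
  · intro c _ hc
    rw [if_neg (fun h => hc h.2.symm)]
  · intro h
    exact absurd (mem_univ _) h

theorem exists_units (F B : Type) [Field F] [IsAlgClosed F] [Ring B] [Algebra F B]
    [IsSemisimpleRing B] [Module.Finite F B] :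
    ∃ (m : ℕ) (d : Fin m → ℕ) (E : ∀ i, Fin (d i) → Fin (d i) → B),
      (∀ i a b c c', E i a b * E i c c' = if b = c then E i a c' else 0) ∧
      (∀ (β : B) (i : Fin m), ∃ M : Fin (d i) → Fin (d i) → F,
        (∀ a b, β * E i a b = ∑ c, M c a • E i c b) ∧
        ∀ a b, E i a b * β = ∑ c, M b c • E i a c) ∧
      ∑ i, ∑ a, E i a a = 1 := by
  classical
  obtain ⟨m, d, hd, ⟨e⟩⟩ := IsSemisimpleRing.exists_algEquiv_pi_matrix_of_isAlgClosed F B
  let ψ : ∀ i, Matrix (Fin (d i)) (Fin (d i)) F →ₗ[F] B := fun i =>
    e.symm.toLinearMap ∘ₗ LinearMap.single F (fun i => Matrix (Fin (d i)) (Fin (d i)) F) i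
  have h1 : ∀ i X β, β * ψ i X = ψ i (e β i * X) := by
    intro i X β
    apply e.injective
    simp only [ψ, LinearMap.comp_apply, AlgEquiv.toLinearMap_apply, map_mul,
      AlgEquiv.apply_symm_apply, LinearMap.single_apply]
    funext j
    rw [Pi.mul_apply]
    by_cases hj : j = i
    · subst hj
      simp
    · rw [Pi.single_eq_of_ne hj, Pi.single_eq_of_ne hj, mul_zero]
  have h2 : ∀ i X β, ψ i X * β = ψ i (X * e β i) := by
    intro i X β
    apply e.injective
    simp only [ψ, LinearMap.comp_apply, AlgEquiv.toLinearMap_apply, map_mul,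
      AlgEquiv.apply_symm_apply, LinearMap.single_apply]
    funext j
    rw [Pi.mul_apply]
    by_cases hj : j = i
    · subst hj
      simp
    · rw [Pi.single_eq_of_ne hj, Pi.single_eq_of_ne hj, zero_mul]
  have h3 : ∀ i X, e (ψ i X) i = X := by
    intro i X
    simp only [ψ, LinearMap.comp_apply, AlgEquiv.toLinearMap_apply, AlgEquiv.apply_symm_apply,
      LinearMap.single_apply]
    simp
  refine ⟨m, d, fun i a b => ψ i (Matrix.single a b 1), ?_, ?_, ?_⟩
  · intro i a b c c'
    rw [h1, h3]
    split_ifs with h
    · rw [h, Matrix.single_mul_single_same, one_mul]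
    · rw [Matrix.single_mul_single_of_ne (c := (1 : F)) a b c h, map_zero]
  · intro β i
    refine ⟨fun a b => e β i a b, fun a b => ?_, fun a b => ?_⟩
    · rw [h1, mat_left, map_sum]
      simp only [map_smul]
    · rw [h2, mat_right, map_sum]
      simp only [map_smul]
  · apply e.injective
    rw [map_one, map_sum]
    funext j
    rw [Finset.sum_apply, Finset.sum_eq_single j]
    · rw [map_sum, Finset.sum_apply]
      simp only [h3]
      rw [Pi.one_apply]
      ext x y
      rw [Matrix.sum_apply]
      simp only [Matrix.single_apply, Matrix.one_apply]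
      rw [Finset.sum_eq_single x]
      · simp
      · intro c _ hc
        rw [if_neg (fun h => hc h.1)]
      · intro h
        exact absurd (mem_univ _) h
    · intro i _ hi
      rw [map_sum, Finset.sum_apply]
      refine Finset.sum_eq_zero fun a _ => ?_
      simp only [ψ, LinearMap.comp_apply, AlgEquiv.toLinearMap_apply, AlgEquiv.apply_symm_apply,
        LinearMap.single_apply]
      rw [Pi.single_eq_of_ne (Ne.symm hi)]
    · intro h
      exact absurd (mem_univ _) h

end Pool.Agent.Zk74.KF
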