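import Pool.Agent.Zk74.KF.Defs
import Pool.Agent.Zk74.KF.BI2
import Pool.Agent.Zk74.KC.Parts

/-!
# Nilpotence for the factors of an isotrivial product
-/

set_option autoImplicit false
set_option linter.unusedSectionVars false
set_option backward.isDefEq.respectTransparency false
set_option backward.defeqAttrib.useBackward true

open CategoryTheory Limits MonoidalCategory
open Pool.Agent.Y112.SR Pool.Agent.Y112.KD Pool.Agent.R905 Pool.Agent.Zk51.KT
open Pool.Agent.X252.GA Pool.Agent.Y116.MT Pool.Agent.Zk74.KG Pool.Agent.Zk74.KC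

namespace Pool.Agent.Zk74.KF

universe v u w

variable {C : Type u} [Category.{v} C] [Preadditive C] [Linear ℚ C] [MonoidalCategory C]
  [MonoidalPreadditive C] [MonoidalLinear ℚ C] [SymmetricCategory C] [RightRigidCategory C]
  [IsIdempotentComplete C] [HasBinaryBiproducts C] {K : Type w} [Field K]
  (R : SuperRealisation C K) {G : Type} [Group G] [Fintype G]

/-- The homologically trivial endomorphisms. -/
noncomputable def homJ (X : C) : Submodule ℚ (End X) where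
  carrier := {f | R.H.map (f : X ⟶ X) = 0}
  add_mem' := by
    intro f g hf hg
    change R.H.map (f + g : X ⟶ X) = 0
    rw [R.H.map_add, show R.H.map (f : X ⟶ X) = 0 from hf, show R.H.map (g : X ⟶ X) = 0 from hg,
      add_zero]
  zero_mem' := R.H.map_zero _ _
  smul_mem' := by
    intro c f hf
    have hch := R_charZero R
    change R.H.map (c • (f : X ⟶ X)) = 0
    rw [R_smul, show R.H.map (f : X ⟶ X) = 0 from hf, smul_zero]

lemma mem_homJ {X : C} (f : End X) : f ∈ homJ R X ↔ R.H.map (f : X ⟶ X) = 0 := Iff.rfl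

lemma homJ_left {X : C} (a : End X) : ∀ f ∈ homJ R X, a * f ∈ homJ R X := by
  intro f hf
  rw [mem_homJ] at hf ⊢
  rw [End.mul_def, R.H.map_comp, hf, zero_comp]

lemma homJ_right {X : C} (a : End X) : ∀ f ∈ homJ R X, f * a ∈ homJ R X := by
  intro f hf
  rw [mem_homJ] at hf ⊢
  rw [End.mul_def, R.H.map_comp, hf, comp_zero]

/-- An equivariant endomorphism which annihilates the isotrivial product vanishes. -/
lemma eq_zero_of_avg (hU : UnitQ C) {W U : C} (α : G →* End W) (β : G →* End U)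
    (hS : SeesOn α β) (w : W ⟶ W) (hw : ∀ g, (α g : W ⟶ W) ≫ w = w ≫ (α g : W ⟶ W))
    (h0 : avg (diag α β) ⊤ ≫ w ▷ U = 0) : w = 0 := by
  classical
  have hcomm : ∀ c : MonoidAlgebra ℚ G, (act α c : W ⟶ W) ≫ w = w ≫ (act α c : W ⟶ W) := by
    intro c
    rw [act_eq, Preadditive.sum_comp, Preadditive.comp_sum]
    refine Finset.sum_congr rfl fun g _ => ?_
    rw [Linear.smul_comp, Linear.comp_smul, hw]
  let I : Ideal (MonoidAlgebra ℚ G) :=
    { carrier := {c | (act α c : W ⟶ W) ≫ w = 0}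
      add_mem' := by
        intro c c' hc hc'
        change ((act α (c + c') : End W) : W ⟶ W) ≫ w = 0
        have : ((act α (c + c') : End W) : W ⟶ W) = (act α c : W ⟶ W) + (act α c' : W ⟶ W) := by
          rw [map_add]
        rw [this, Preadditive.add_comp, show (act α c : W ⟶ W) ≫ w = 0 from hc,
          show (act α c' : W ⟶ W) ≫ w = 0 from hc', add_zero]
      zero_mem' := by
        change ((act α 0 : End W) : W ⟶ W) ≫ w = 0
        rw [map_zero]
        exact zero_comp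
      smul_mem' := by
        intro c c' hc'
        change ((act α (c * c') : End W) : W ⟶ W) ≫ w = 0
        rw [act_mul, Category.assoc, hcomm, ← Category.assoc,
          show (act α c' : W ⟶ W) ≫ w = 0 from hc', zero_comp] }
  have hI : ∀ c, c ∈ I ↔ (act α c : W ⟶ W) ≫ w = 0 := fun c => Iff.rfl
  have hIr : ∀ x ∈ I, ∀ y, x * y ∈ I := by
    intro x hx y
    rw [hI] at hx ⊢
    rw [act_mul, Category.assoc, hx, comp_zero]
  have huel : ∀ y : U ⟶ U, uel hU β y ∈ I := by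
    intro y
    rw [hI]
    have e2 : (Nat.card (⊤ : Subgroup G) : ℚ) • avg (diag α β) ⊤ =
        ∑ g, ((α g : W ⟶ W) ⊗ₘ (β g : U ⟶ U)) := by
      unfold avg
      rw [smul_smul, mul_inv_cancel₀ (card_ne _), one_smul]
      refine Finset.sum_congr ?_ fun g _ => rfl
      ext g
      simp
    have e1 : ∑ g, (((α g : W ⟶ W) ≫ w) ⊗ₘ ((β g : U ⟶ U) ≫ y)) = 0 := by
      calc ∑ g, (((α g : W ⟶ W) ≫ w) ⊗ₘ ((β g : U ⟶ U) ≫ y))
          = (∑ g, ((α g : W ⟶ W) ⊗ₘ (β g : U ⟶ U))) ≫ (w ⊗ₘ y) := by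
            rw [Preadditive.sum_comp]
            exact Finset.sum_congr rfl fun g _ => (tensorHom_comp_tensorHom _ _ _ _).symm
        _ = (Nat.card (⊤ : Subgroup G) : ℚ) • ((avg (diag α β) ⊤ ≫ w ▷ U) ≫ W ◁ y) := by
            rw [← e2, Linear.smul_comp, MonoidalCategory.tensorHom_def, Category.assoc]
        _ = 0 := by rw [h0, zero_comp, smul_zero]
    have e3 : ptr (∑ g, (((α g : W ⟶ W) ≫ w) ⊗ₘ ((β g : U ⟶ U) ≫ y))) =
        ∑ g, trq hU U ((β g : U ⟶ U) ≫ y : U ⟶ U) • ((α g : W ⟶ W) ≫ w) := by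
      refine (map_sum (ptrL W U) _ _).trans ?_
      exact Finset.sum_congr rfl fun g _ => ptr_tensor _ _ _ (trq_spec hU _)
    have e4 : ptr (0 : W ⊗ U ⟶ W ⊗ U) = 0 := (ptrL W U).map_zero
    rw [e1, e4] at e3
    unfold uel
    rw [act_sum, Preadditive.sum_comp]
    rw [e3]
    exact Finset.sum_congr rfl fun g _ => Linear.smul_comp _ _ _ _ _ _
  obtain ⟨e, he, hi, hex, -, hd⟩ := exists_central I hIr
  have h5 : ∀ y : U ⟶ U, tr ((∑ g, (1 - e : MonoidAlgebra ℚ G).coeff g • (β g : U ⟶ U)) ≫ y) = 0 := by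
    intro y
    rw [← act_eq, tr_zero_iff hU]
    have h6 := coeff_uel hU β y (1 - e)
    rw [sub_mul, one_mul, hex _ (huel y), sub_self, dag_sub, dag_one, hd] at h6
    rw [← h6]
    simp
  have h6 := hS _ h5
  rw [← act_eq] at h6
  have h7 : (act α e : W ⟶ W) = 𝟙 W := by
    have h8 : (act α (1 - e) : End W) = 1 - act α e := by rw [map_sub, map_one]
    have h9 : (1 : End W) - act α e = 0 := by rw [← h8]; exact h6
    rw [sub_eq_zero] at h9
    exact h9.symm
  have h8 := (hI e).1 he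
  rwa [h7, Category.id_comp] at h8

/-- Nilpotence of the equivariant homologically trivial endomorphisms. -/
theorem fix_nil (hU : UnitQ C) {W U Q : C} (α : G →* End W) (β : G →* End U)
    (hS : SeesOn α β) {i : Q ⟶ W ⊗ U} {r : W ⊗ U ⟶ Q} (hir : i ≫ r = 𝟙 Q)
    (hri : r ≫ i = avg (diag α β) ⊤) (S : Submodule ℚ (End Q)) {L : ℕ} (hL : S ^ (L + 1) = ⊥)
    (hJ : ∀ f : End Q, R.H.map (f : Q ⟶ Q) = 0 → f ∈ S) :
    fixJ α (homJ R W) ^ (L + 1) = ⊥ := by
  classical
  obtain ⟨Ψ, hΨ⟩ : ∃ Ψ : End W → End Q, ∀ x : End W, Ψ x = i ≫ (x : W ⟶ W) ▷ U ≫ r :=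
    ⟨fun x => i ≫ (x : W ⟶ W) ▷ U ≫ r, fun _ => rfl⟩
  have hcm : ∀ x : End W, (∀ g, α g * x = x * α g) →
      avg (diag α β) ⊤ ≫ (x : W ⟶ W) ▷ U = (x : W ⟶ W) ▷ U ≫ avg (diag α β) ⊤ := by
    intro x hx
    unfold avg
    rw [Linear.smul_comp, Linear.comp_smul, Preadditive.sum_comp, Preadditive.comp_sum]
    congr 1
    refine Finset.sum_congr rfl fun g _ => ?_
    change ((α g : W ⟶ W) ⊗ₘ (β g : U ⟶ U)) ≫ (x : W ⟶ W) ▷ U =
      (x : W ⟶ W) ▷ U ≫ ((α g : W ⟶ W) ⊗ₘ (β g : U ⟶ U))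
    have h1 : (α g : W ⟶ W) ≫ (x : W ⟶ W) = (x : W ⟶ W) ≫ (α g : W ⟶ W) := by
      have := hx g
      rw [End.mul_def, End.mul_def] at this
      exact this.symm
    rw [← tensorHom_id, tensorHom_comp_tensorHom, tensorHom_comp_tensorHom, h1, Category.comp_id,
      Category.id_comp]
  have hΨm : ∀ s t : End W, (∀ g, α g * s = s * α g) → Ψ s * Ψ t = Ψ (s * t) := by
    intro s t hs
    rw [hΨ, hΨ, hΨ, End.mul_def, End.mul_def]
    calc (i ≫ (t : W ⟶ W) ▷ U ≫ r) ≫ (i ≫ (s : W ⟶ W) ▷ U ≫ r)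
        = i ≫ (t : W ⟶ W) ▷ U ≫ (r ≫ i) ≫ (s : W ⟶ W) ▷ U ≫ r := by simp only [Category.assoc]
      _ = i ≫ (t : W ⟶ W) ▷ U ≫ (s : W ⟶ W) ▷ U ≫ (r ≫ i) ≫ r := by
          rw [hri, ← Category.assoc (avg _ _), hcm s hs, Category.assoc]
      _ = i ≫ ((t : W ⟶ W) ≫ (s : W ⟶ W)) ▷ U ≫ r := by
          rw [Category.assoc r i r, hir, Category.comp_id, comp_whiskerRight, Category.assoc]
  have hk : ∀ k, ∀ w ∈ fixJ α (homJ R W) ^ (k + 1), Ψ w ∈ S ^ (k + 1) ∧
      ∀ g, α g * w = w * α g := by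
    intro k
    induction k with
    | zero =>
      intro w hw
      rw [zero_add, pow_one] at hw ⊢
      refine ⟨hJ _ ?_, hw.2⟩
      have h1 : R.H.map (w : W ⟶ W) = 0 := hw.1
      rw [hΨ, R.H.map_comp, R.H.map_comp, Functor.Monoidal.map_whiskerRight, h1,
        MonoidalPreadditive.zero_whiskerRight]
      simp
    | succ k ih =>
      intro w hw
      rw [pow_succ] at hw ⊢
      refine Submodule.mul_induction_on hw (fun s hs t ht => ?_) fun s t hs ht => ?_
      · obtain ⟨i1, i2⟩ := ih s hs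
        refine ⟨?_, fun g => ?_⟩
        · rw [← hΨm s t i2]
          refine Submodule.mul_mem_mul i1 (hJ _ ?_)
          have h1 : R.H.map (t : W ⟶ W) = 0 := ht.1
          rw [hΨ, R.H.map_comp, R.H.map_comp, Functor.Monoidal.map_whiskerRight, h1,
            MonoidalPreadditive.zero_whiskerRight]
          simp
        · rw [← mul_assoc, i2, mul_assoc, ht.2, ← mul_assoc]
      · refine ⟨?_, fun g => by rw [mul_add, add_mul, hs.2, ht.2]⟩
        have : Ψ (s + t) = Ψ s + Ψ t := by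
          rw [hΨ, hΨ, hΨ]
          change i ≫ ((s : W ⟶ W) + (t : W ⟶ W)) ▷ U ≫ r = _
          rw [MonoidalPreadditive.add_whiskerRight, Preadditive.add_comp, Preadditive.comp_add]
        rw [this]
        exact Submodule.add_mem _ hs.1 ht.1
  rw [eq_bot_iff]
  intro w hw
  obtain ⟨h1, h2⟩ := hk L w hw
  rw [hL, Submodule.mem_bot, hΨ] at h1
  have h3 : avg (diag α β) ⊤ ≫ (w : W ⟶ W) ▷ U = 0 := by
    have h4 : r ≫ (i ≫ (w : W ⟶ W) ▷ U ≫ r) ≫ i = 0 := by
      rw [show (i ≫ (w : W ⟶ W) ▷ U ≫ r) = 0 from h1, zero_comp, comp_zero]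
    have h5 : r ≫ (i ≫ (w : W ⟶ W) ▷ U ≫ r) ≫ i =
        (r ≫ i) ≫ (w : W ⟶ W) ▷ U ≫ (r ≫ i) := by simp only [Category.assoc]
    rw [h5, hri, ← hcm w h2, ← Category.assoc, avg_avg] at h4
    exact h4
  rw [Submodule.mem_bot]
  refine eq_zero_of_avg hU α β hS (w : W ⟶ W) (fun g => ?_) h3
  have := h2 g
  rw [End.mul_def, End.mul_def] at this
  exact this.symm

end Pool.Agent.Zk74.KF
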